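import Pool.Agent.Lib.MP_ef3f0f_gt.U.G.Defs

set_option autoImplicit false

/-!
# MP_ef3f0f_gt, Theorem U, part K (gluing with diamonds, pants): the statements

Every statement is a `def S_X : Prop` with its proof in the docstring. A module `U/G/X.lean` proves
`theorem tX : S_Y → ... → S_X` (the hypotheses are the statements it uses), in the namespace
`Pool.Agent.MPEF.U`. The old library `MP_ef3f0f_gt/G` (modules `SysMap`, `SysConj`, `StPerm`, `Amal`,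
`StAmal`, `HNN`, `StHNN`, `Glue`, `SurfEnd`, `sf`, `AW`, `HW`) and `A/Pants` are very close MODELS: copy the
code and change it (the conditions here are simpler: no topology, no closures). `S_sf`, `S_AW`,
`S_HW` are the old statements; their proofs `tsf`, `tAW`, `tHW` of the old library may be imported.
-/

namespace Pool.Agent.MPEF.U

open scoped Pointwise commutatorElement
open Pool.Agent.MPEF

/-- Transport of a system along an isomorphism, a reindexing and conjugation of the boundaries.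
Proof (model: old `SysMap`). `el`: `ρ (θ (b' i)) = ρ (y i) * ρ (b (f i)) * (ρ (y i))⁻¹`. `dis`: `ρ (θ g) • (ρ (y i) • I) ⊆
ρ (y j) • J` iff `ρ ((y j)⁻¹ * θ g * y i) • I ⊆ J`; if `f i = f j` then `i = j`, and if `(y i)⁻¹ * θ g * y i` is a power of
`b (f i)` then `θ g` is a power of `θ (b' i)`, so `g` is a power of `b' i`. `cos`: `x ↦ θ.symm (y i * x * (y i)⁻¹)`. -/
def S_SysMap : Prop :=
  ∀ (Γ X Q Q' κ κ' : Type) [Group Γ] [MulAction Γ X] [Group Q] [Group Q'] (ρ : Q →* Γ)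
    (b : κ → Q) (β : κ → FL Γ X), Sys ρ b β → ∀ (θ : Q' ≃* Q) (f : κ' → κ),
    Function.Injective f → ∀ (b' : κ' → Q') (y : κ' → Q),
      (∀ i, θ (b' i) = y i * b (f i) * (y i)⁻¹) →
      Sys (ρ.comp θ.toMonoidHom) b' fun i => ρ (y i) • β (f i)

/-- Conjugation of the representation. Proof. `(t ρ g t⁻¹) • (t • I) = t • (ρ g • I)`. -/
def S_SysConj : Prop :=
  ∀ (Γ X Q κ : Type) [Group Γ] [MulAction Γ X] [Group Q] (ρ : Q →* Γ) (b : κ → Q)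
    (β : κ → FL Γ X), Sys ρ b β → ∀ t : Γ,
      Sys ((MulAut.conj t).toMonoidHom.comp ρ) b fun i => t • β i

/-- Permutation of the boundaries. Proof as the old `StPerm`: adjacent transpositions, `θ` with
`s_i ↦ s_i s_{i+1} s_i⁻¹`, `s_{i+1} ↦ s_i`; `S_SysMap`; the new framed loops are translates
`ρ y • β (f i)`, so translates of `c (f i)`. -/
def S_StPerm : Prop :=
  ∀ (Γ X : Type) [Group Γ] [MulAction Γ X] (h k : ℕ) (c : Fin k → FL Γ X), St h k c →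
    ∀ π : Equiv.Perm (Fin k), St h k (c ∘ π)

/-- **Amalgam lemma.** Proof. Write `I = (β₁ none).I`, `J = (β₁ none).J`, so `(β₂ none).I = J`,
`(β₂ none).J = I`. `j₁` is injective (`j₁ x = 1` gives `ρ₁ x = 1`, `inj`), `j₂` too. `K₁ = j₁.range`, `K₂ = j₂.range`,
`Z = zpowers (j₁ (b₁ none)) = zpowers (j₂ (b₂ none))`.
(a) `ρ₁ x • I ⊆ J` for `x ∉ zpowers (b₁ none)`; `ρ₁ x • I ⊆ (β₁ (some j)).J` and `ρ₁ x • (β₁ (some i)).I ⊆ J` for all `x`;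
the same for the second system with `I`, `J` exchanged.
(b) by induction over `AW K₁ K₂ Z s e g`: let `S_e = I` for `e = false`, `J` for `e = true`. Then `ρ g • S_e ⊆ J` if
`s = false`, `⊆ I` if `s = true`; moreover `ρ g • S_e ⊆ (β j).J` for every boundary `j` of the new system
(first letter `x₁ ∈ K₁ ∖ Z`: `ρ g • S_e ⊆ ρ x₁ • I`, which is contained in `(β₁ (some j)).J` and in `J`, and
`J = ρ₂ 1 • (β₂ none).I ⊆ (β₂ (some j)).J`; similarly for `x₁ ∈ K₂`).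
`inj`: `g ∈ K₁` or `K₂`: `inj` of the systems. Otherwise `AW s e g` (`S_AW`). `s = e = false`: `I = ρ g • I ⊆ J`, against
`Disjoint I J` and `I ≠ ∅`; `s = e = true` similarly. `s = false`, `e = true`: `J ⊆ ρ₁ x₁ • I`, `x₁ ∉ zpowers (b₁ none)`; by
`cos` there is `y ∉ zpowers (b₁ none)` with `x₁⁻¹ y ∉ zpowers (b₁ none)`; then `ρ₁ y • I ⊆ J ⊆ ρ₁ x₁ • I` and
`ρ₁ y • I ⊆ ρ₁ x₁ • J`, disjoint from `ρ₁ x₁ • I`: contradiction to `I ≠ ∅`. `s = true`, `e = false`: the same in `Q₂`.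
`dis`: let `g`, `i`, `j` be given. If `g ∈ Z`: `g = j₁ (ℓ^n) = j₂ (ℓ'^(-n))`: `i`, `j` in the same system: `dis` of this system;
in different ones: `ρ g • I_i ⊆ J` resp. `I` (`dis` with `none`), and `J ⊆ (β₂ (some j)).J` resp.
`I ⊆ (β₁ (some j)).J` (`dis` with `g = 1`). If `AW s e g`: if the last letter is in the group of the other system than `i`: `I_i ⊆ S_e`
(`dis` with `1`), then (b). If it is in the group of `i`: `g = x` a single letter: `dis` (same system) or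
`ρ x • I_i ⊆ J ⊆ (β₂ (some j)).J`; `g = g' x` with `g'` alternating, ending in the other group: `ρ x • I_i ⊆ J` (for `i` in
the first system) `= S_{e'}`, then (b) for `g'`. (It is convenient to prove first, by induction over `AW` with
the last letter split off, that an alternating word is a single letter or `g' x`.) `cos`: images under the
injective `j₁`, `j₂`. -/
def S_Amal : Prop :=
  ∀ (Γ X Q₁ Q₂ Q κ₁ κ₂ : Type) [Group Γ] [MulAction Γ X] [Group Q₁] [Group Q₂] [Group Q]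
    (ρ₁ : Q₁ →* Γ) (b₁ : Option κ₁ → Q₁) (β₁ : Option κ₁ → FL Γ X)
    (ρ₂ : Q₂ →* Γ) (b₂ : Option κ₂ → Q₂) (β₂ : Option κ₂ → FL Γ X)
    (ρ : Q →* Γ) (j₁ : Q₁ →* Q) (j₂ : Q₂ →* Q),
      Sys ρ₁ b₁ β₁ → Sys ρ₂ b₂ β₂ → (∀ x, ρ (j₁ x) = ρ₁ x) → (∀ x, ρ (j₂ x) = ρ₂ x) →
      j₂ (b₂ none) = (j₁ (b₁ none))⁻¹ → β₂ none = (β₁ none).inv → j₁.range ⊔ j₂.range = ⊤ →
      Sys ρ (Sum.elim (fun i => j₁ (b₁ (some i))) fun i => j₂ (b₂ (some i)))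
        (Sum.elim (fun i => β₁ (some i)) fun i => β₂ (some i))

/-- Gluing of a pair of pants to a state along one boundary. Proof as the old `StAmal`. Let `β₁ 0 = t₁ • c 0`,
`β₂ 0 = t₂ • d 0`, `t • c 0 = (d 0).inv`; then `β₁ 0 = (s • β₂ 0).inv` with `s = t₁ t⁻¹ t₂⁻¹`; replace the representation
`ρ₂` of the pants by its conjugate with `s` (`S_SysConj`), so `β₂ 0 = (β₁ 0).inv` and (`el`) `ρ₂ s₀ = (ρ₁ s₀)⁻¹`. The rest
as before. -/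
def S_StAmal : Prop :=
  ∀ (Γ X : Type) [Group Γ] [MulAction Γ X] (h k : ℕ) (c : Fin (k + 1) → FL Γ X)
    (d : Fin 3 → FL Γ X), St h (k + 1) c → St 0 3 d → (∃ t : Γ, t • c 0 = (d 0).inv) →
    St h (k + 2) (Fin.cons (d 1) (Fin.cons (d 2) fun j : Fin k => c j.succ))

/-- **HNN lemma.** Proof. Let `γ(+) = β none`, `γ'(+) = β (some none)`, `γ(-) = β (some none)`,
`γ'(-) = β none`. From `ρ t • β none = (β (some none)).inv`: `ρ t • (γ(+)).J = (γ'(+)).I` and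
`(ρ t)⁻¹ • (γ(-)).J = (γ'(-)).I`. `K = j.range`, `Z = zpowers (j (b none))`, `Z' = zpowers (j (b (some none)))`. If
`HW K Z Z' t ε e w` then `ρ w • (γ e).J ⊆ (γ' ε).I`: induction; for `t^ε x w'`, `HW ε' e w'`: `ρ w' • (γ e).J ⊆ (γ' ε').I` and
`ρ x • (γ' ε').I ⊆ (γ ε).J` by `dis`: the boundaries of `γ' ε'` and `γ ε` are equal iff `ε' ≠ ε`, and then `x` is not in the
subgroup of this boundary as the word is reduced.
`inj`: `g ∈ K`: `inj` of the system. `g = x₀ w x₁` (`S_HW`): `ρ g` acts trivially, so does `ρ (w x₁ x₀)` (conjugate); with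
`x = x₁ x₀ ∈ K`: `(γ e).J ⊆ ρ x • (γ' ε).I` (apply `ρ x` to `ρ w • (γ e).J ⊆ (γ' ε).I`; `ρ x ρ w` acts
trivially, being conjugate to `ρ w ρ x`). Let `k` be the boundary index (`none` or `some none`) of `γ' ε`; by `cos` there is `y` in `Q₀` with
`y ∉ zpowers (b k)` and `x⁻¹ y ∉ zpowers (b k)`; then `V = ρ y • (β k).I` is contained in `(γ e).J` (`dis`), and in
`ρ x • (β k).J`, which is disjoint from `ρ x • (β k).I`: contradiction to `V ≠ ∅`.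
`dis`: `g ∈ K`: `dis` of the system (`j` is injective). `g = x₀ w x₁`: `ρ x₁ • I_i ⊆ (γ e).J`, so
`ρ (w x₁) • I_i ⊆ (γ' ε).I`, and `ρ x₀ • (γ' ε).I ⊆ J_{i'}`. `cos`: images of `j`. -/
def S_HNN : Prop :=
  ∀ (Γ X Q₀ Q κ : Type) [Group Γ] [MulAction Γ X] [Group Q₀] [Group Q]
    (ρ₀ : Q₀ →* Γ) (b : Option (Option κ) → Q₀) (β : Option (Option κ) → FL Γ X)
    (ρ : Q →* Γ) (j : Q₀ →* Q) (t : Q),
      Sys ρ₀ b β → (∀ x, ρ (j x) = ρ₀ x) → t * j (b none) * t⁻¹ = (j (b (some none)))⁻¹ →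
      ρ t • β none = (β (some none)).inv → j.range ⊔ Subgroup.zpowers t = ⊤ →
      Sys ρ (fun i => j (b (some (some i)))) fun i => β (some (some i))

/-- Gluing two boundaries of a state. Proof as the old `StHNN`: `β 0 = t₀ • c 0`, `β 1 = t₁ • c 1`,
`t • c 0 = (c 1).inv`; so `(t₁ t t₀⁻¹) • β 0 = (β 1).inv`; this element is `ρ (T_h)`. -/
def S_StHNN : Prop :=
  ∀ (Γ X : Type) [Group Γ] [MulAction Γ X] (h k : ℕ) (c : Fin (k + 2) → FL Γ X),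
    St h (k + 2) c → (∃ t : Γ, t • c 0 = (c 1).inv) → St (h + 1) k fun j : Fin k => c j.succ.succ

/-- Main gluing induction. Proof as the old `Glue` (with `∃ t, t • x = y.inv` in place of `IsConj x y⁻¹`; this
relation is symmetric: `t • x = y.inv` gives `t⁻¹ • y = x.inv` by `FL.smul_inv`). -/
def S_Glue : Prop :=
  ∀ (Γ X : Type) [Group Γ] [MulAction Γ X] (n : ℕ), 1 ≤ n → ∀ d : Fin n → Fin 3 → FL Γ X,
    (∀ i, St 0 3 (d i)) →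
    ∀ σ : Fin n × Fin 3 → Fin n × Fin 3, (∀ x, σ (σ x) = x) → (∀ x, σ x ≠ x) →
      (∀ x, ∃ t : Γ, t • d x.1 x.2 = (d (σ x).1 (σ x).2).inv) →
      ∃ h : ℕ, 2 ≤ h ∧ ∃ c : Fin 0 → FL Γ X, St h 0 c

/-- The end: `SF h 0` is the surface group (old `SurfEnd`). -/
def S_SurfEnd : Prop :=
  ∀ (Γ X : Type) [Group Γ] [MulAction Γ X] (h : ℕ) (c : Fin 0 → FL Γ X), St h 0 c →
    ∃ f : SurfaceGroup h →* Γ, ∀ g, (∀ x : X, f g • x = x) → g = 1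

/-- **Matching.** Proof as the old `Match` (from `S_Gordan`), with the type `L` of framed loops modulo the action of
`Γ` in place of `ConjClasses Γ`: `V = (Quotient of L by the orbit relation) →₀ ℚ`, `inv` descends (`hi`). A linear form `f` gives
`φ l = f (e l)`, `e l = single [l] 1 - single [inv l] 1`, odd and invariant. (b) `c : ι → ℕ` gives `n`, `f`, `σ` as before, with
`[d ..] = inv [d ..]`, i.e. `∃ t, t • l = inv l'`. -/
def S_Match : Prop :=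
  ∀ (Γ L ι : Type) [Group Γ] [MulAction Γ L] [Fintype ι] (inv : L → L), (∀ l, inv (inv l) = l) →
    (∀ (t : Γ) l, inv (t • l) = t • inv l) → ∀ d : ι → Fin 3 → L,
    (∃ φ : L → ℝ, (∀ (t : Γ) l, φ (t • l) = φ l) ∧ (∀ l, φ (inv l) = - φ l) ∧
      ∀ i, 0 < φ (d i 0) + φ (d i 1) + φ (d i 2)) ∨
    ∃ n : ℕ, 1 ≤ n ∧ ∃ (f : Fin n → ι) (σ : Fin n × Fin 3 → Fin n × Fin 3),
      (∀ x, σ (σ x) = x) ∧ (∀ x, σ x ≠ x) ∧
      ∀ x, ∃ t : Γ, t • d (f x.1) x.2 = inv (d (f (σ x).1) (σ x).2)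

/-- Facts about diamonds. Proof. (1) `CO.inv`. (2) both from `CO.trans`, `CO.cyc`: let `T x y z`, `T x z t`, `T y s z`.
`T y z x` (cyc) and `T y s z` give `T s z x`, so `T x s z`, and with `T x z t`: `T x s t`. (3) `T x z t`, `T x s z`: `T x s t`.
(4) `T x y z` and `T y s z`: as in (2) `T x s z`. (5) `T x z y` and `T y z x` give `T x y z` (cyc twice), against `asym`. (6) `Eqv x x'`
gives also `T u x v ↔ T u x' v` and `T u v x ↔ T u v x'` by `cyc` (three rotations). (7), (8) definitions. -/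
def S_Dm : Prop :=
  ∀ (Γ X : Type) [Group Γ] [MulAction Γ X] (T : X → X → X → Prop), CO Γ T →
    (∀ (g : Γ) x y, g • Dm T x y = Dm T (g • x) (g • y)) ∧
    (∀ x y z t, T x y z → T x z t → Dm T y z ⊆ Dm T x t) ∧
    (∀ x z t, T x z t → Dm T x z ⊆ Dm T x t) ∧
    (∀ x y z, T x y z → Dm T y z ⊆ Dm T x z) ∧
    (∀ x y, Disjoint (Dm T x y) (Dm T y x)) ∧
    (∀ x x' y y', Eqv T x x' → Eqv T y y' → Dm T x y = Dm T x' y') ∧
    (∀ (g : Γ) x y, Eqv T x y → Eqv T (g • x) (g • y)) ∧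
    (∀ x x' u v, Eqv T x x' → (T u x v ↔ T u x' v) ∧ (T u v x ↔ T u v x')) ∧
    (∀ (t l : Γ) x y, t • fl T l x y = fl T (t * l * t⁻¹) (t • x) (t • y)) ∧
    ∀ (l : Γ) x y, (fl T l x y).inv = fl T l⁻¹ y x

/-- The positive octuple of the pants. Here `u, v, w = e 0, e 1, e 2`, `a = u v⁻¹`, `b = v w⁻¹`, `ap = z 0 1`, `am = z 1 0`,
`bp = z 1 2`, `bm = z 2 1`, `cp = z 2 0`, `cm = z 0 2`, `dp = b • cp`, `dm = b • cm`; all triples `i < j < k` of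
`x = (cp, cm, ap, am, dp, dm, bp, bm)` are positive. Proof. By `CO.trans` and induction it is enough to
show `T (x 0) (x i) (x (i+1))`, `1 ≤ i ≤ 6` (first `T (x 0) (x i) (x j)` for `1 ≤ i < j` by `trans`; then for `1 ≤ i < j < k` from `T x0 xi xj`, `T x0 xj xk`:
`T xi xj xk`). Note `dp ~ a⁻¹ • cp`, `dm ~ a⁻¹ • cm` (`~` is `Eqv`; `a b = u w⁻¹`
and `(w u⁻¹) • cp ~ cp`, `(u w⁻¹) • cm ~ cm`). Membership facts: for `i ≠ j`, `x ∈ A j`: `(e i)⁻¹ • x ∈ B i`; `z i j ~ e i • (e j)⁻¹ • z i j` with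
`(e j)⁻¹ • z i j ∈ B j`, so `(e i)⁻¹ • z i j ~ (e j)⁻¹ • z i j ∈ B j`.
(1) `T cp cm ap`: apply `u⁻¹`: `u⁻¹ cp ∈ B 0`, `u⁻¹ cm ~` element of `B 2`, `u⁻¹ ap ~` element of `B 1`: `posB` and `cyc`.
(2) `T cp ap am`: `A 2, A 0, A 1`. (3) `T cp am dp`: apply `a` (`a dp ~ cp`, `a am ~ am`): `T (a cp) am cp` with
`a cp = u (v⁻¹ cp) ∈ A 0`: `A 0, A 1, A 2`. (4) `T cp dp dm`: apply `a`, then `u⁻¹`: `(v⁻¹ cp, u⁻¹ cp, u⁻¹ cm)` in
`B 1, B 0, B 2`. (5) `T cp dm bp`: apply `b⁻¹ = w v⁻¹`: `(w v⁻¹ cp, cm, bp)` in `A 2, A 0, A 1`. (6) `T cp bp bm`: apply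
`w⁻¹`: `w⁻¹ cp ~ u⁻¹ cp ∈ B 0`, `w⁻¹ bp ∈ B 2`, `w⁻¹ bm ~ v⁻¹ bm ∈ B 1`. -/
def S_Oct : Prop :=
  ∀ (Γ X : Type) [Group Γ] [MulAction Γ X] (T : X → X → X → Prop), CO Γ T →
    ∀ (e : Fin 3 → Γ) (A B : Fin 3 → Set X) (z : Fin 3 → Fin 3 → X), PD T e A B z →
    (∀ i j k : Fin 8, i < j → j < k →
      T (![z 2 0, z 0 2, z 0 1, z 1 0, (e 1 * (e 2)⁻¹) • z 2 0, (e 1 * (e 2)⁻¹) • z 0 2,
          z 1 2, z 2 1] i)
        (![z 2 0, z 0 2, z 0 1, z 1 0, (e 1 * (e 2)⁻¹) • z 2 0, (e 1 * (e 2)⁻¹) • z 0 2,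
          z 1 2, z 2 1] j)
        (![z 2 0, z 0 2, z 0 1, z 1 0, (e 1 * (e 2)⁻¹) • z 2 0, (e 1 * (e 2)⁻¹) • z 0 2,
          z 1 2, z 2 1] k)) ∧
    Eqv T ((e 0 * (e 1)⁻¹) • (e 1 * (e 2)⁻¹) • z 2 0) (z 2 0) ∧
    Eqv T ((e 0 * (e 1)⁻¹) • (e 1 * (e 2)⁻¹) • z 0 2) (z 0 2)

/-- Ping-pong for one generator. `a` fixes `ap`, `am` (up to `Eqv`), `a dp ~ cp`, `a dm ~ cm`, and
`(cp, cm, ap, am, dp, dm)` is positive. Then with `Ic = Dm cp cm`, `Id = Dm dp dm`, `Xb = Dm dm cp`,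
`U = Dm cm ap`, `V = Dm am dp`: all positive powers of `a` map `Xb` and `Ic` into `U`, `a • Id = Ic`, powers `≥ 2` map `Id` into
`U`; all negative powers map `Xb` and `Id` into `V`, `a⁻¹ • Ic = Id`, powers `≤ -2` map `Ic` into `V`.
Proof. Apply `a` to the positive 6-tuple: `(a cp, a cm, ap, am, cp, cm)` is positive (up to `~`), so
`T cm (a cp) ap`, `T cm (a cm) ap`, `T cm (a cp) (a cm)` (cyc). So `a • Xb = Dm cm (a cp) ⊆ U`, `a • Ic = Dm (a cp) (a cm) ⊆ U`,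
`a • U = Dm (a cm) ap ⊆ U` (`S_Dm`), and induct. Apply `a⁻¹`: `(dp, dm, ap, am, a⁻¹ dp, a⁻¹ dm)` is positive:
`T am (a⁻¹ dp) dp`, `T am (a⁻¹ dm) dp`, `T am (a⁻¹ dp) (a⁻¹ dm)`; `a⁻¹ • Xb = Dm (a⁻¹ dm) dp ⊆ V`,
`a⁻¹ • Id = Dm (a⁻¹ dp) (a⁻¹ dm) ⊆ V`, `a⁻¹ • V = Dm am (a⁻¹ dp) ⊆ V`. -/
def S_PP : Prop :=
  ∀ (Γ X : Type) [Group Γ] [MulAction Γ X] (T : X → X → X → Prop), CO Γ T →
    ∀ (a : Γ) (x : Fin 6 → X), (∀ i j k, i < j → j < k → T (x i) (x j) (x k)) →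
    Eqv T (a • x 2) (x 2) → Eqv T (a • x 3) (x 3) → Eqv T (a • x 4) (x 0) →
    Eqv T (a • x 5) (x 1) →
    a • Dm T (x 4) (x 5) = Dm T (x 0) (x 1) ∧
    (∀ n : ℤ, 1 ≤ n → a ^ n • Dm T (x 5) (x 0) ⊆ Dm T (x 1) (x 2) ∧
      a ^ n • Dm T (x 0) (x 1) ⊆ Dm T (x 1) (x 2) ∧
      (2 ≤ n → a ^ n • Dm T (x 4) (x 5) ⊆ Dm T (x 1) (x 2))) ∧
    ∀ n : ℤ, n ≤ -1 → a ^ n • Dm T (x 5) (x 0) ⊆ Dm T (x 3) (x 4) ∧
      a ^ n • Dm T (x 4) (x 5) ⊆ Dm T (x 3) (x 4) ∧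
      (n ≤ -2 → a ^ n • Dm T (x 0) (x 1) ⊆ Dm T (x 3) (x 4))

/-- **Pants lemma.** Proof. Notation of `S_Oct`: `Ia = Dm ap am`, `Ib = Dm bp bm`, `Ic = Dm cp cm`, `Id = Dm dp dm = b • Ic`
(so `a • Id = Ic`), `Xa = Dm cm dp`, `Xb = Dm dm cp`. `Ia ⊆ Xa`, `Ib ⊆ Xb`; `Xa`, `Xb`, `Ic`, `Id` are pairwise disjoint;
`Xb, Ic, Id ⊆ Dm am ap`; `Xa, Ic, Id ⊆ Dm bm bp`; `Xa, Xb, Id ⊆ Dm cm cp` (`S_Dm`; e.g. `Dm dm cp ⊆ Dm am ap` from
`T am dm cp`, `T am cp ap`). The representation (`S_sf`, model: old `A/Pants`): `s₀ ↦ a`, `s₁ ↦ b`, `s₂ ↦ (a b)⁻¹ = w u⁻¹`.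
`S_PP` for `a` and `x = (cp, cm, ap, am, dp, dm)`, and for `b` and `x = (dp, dm, bp, bm, cp, cm)` (`b cp = dp`): for `n ≠ 0`:
`a^n` maps `Xb`, `Ic`, `Id` into `Xa`, except `a Id = Ic`, `a⁻¹ Ic = Id`; `b^n` maps `Xa`, `Ic`, `Id` into `Xb`, except `b Ic = Id`,
`b⁻¹ Id = Ic` (`Dm cm ap, Dm am dp ⊆ Xa`, `Dm dm bp, Dm bm cp ⊆ Xb`).
Words (`S_AW` with `K₁ = zpowers s₀`, `K₂ = zpowers s₁`, `Z = ⊥`; they generate): by induction over `AW s e g`, for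
`W ∈ {Xb, Ic, Id}` (`e = false`) resp. `{Xa, Ic, Id}` (`e = true`): `ρ g • W ⊆ Xa` (`s = false`) resp. `⊆ Xb` (`s = true`) or
`ρ g • W ∈ {Ic, Id}`; for `W = Xb` (`e = false`) resp. `Xa` (`e = true`) only the first alternative; and for `W = Ic`: the alternative
`ρ g • Ic = Ic` only with `g ∈ zpowers s₂` and `ρ g • Ic = Id` only with `g ∈ s₁ * zpowers s₂` (formulate: `g • Ic ⊆ X_s`, or
`g ∈ zpowers s₂`, or `s₁⁻¹ * g ∈ zpowers s₂`; note `s₀⁻¹ = s₁ s₂`; the four sets are disjoint and nonempty).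
`dis`: target `c`: `Xa, Xb, Id ⊆ Dm cm cp`; arcs `Ia`: write `g = g' y` with `y ∈ K₁` (fixes `Ia`) and `g' = 1` or `AW _ true g'`: `ρ g' • Ia ⊆
Xa` or `Xb`; `Ib` similarly; arc `Ic`: `g ∉ zpowers s₂`, so `ρ g • Ic ⊆ Xa`, `Xb` or `= Id`. Target `a`: write `g = y g'` with `y ∈ K₁`
(fixes `Dm am ap`) and `g' = 1` or `AW true _ g'`; then `ρ g' • I_i` is `⊆ Xb` or `Ic` or `Id` (for `i = a`: `g ∉ K₁`, `g' = g'' y'`, `g''` starting and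
ending in `K₂`; for `i = b`, `g' ∈ K₂`: `Ib ⊆ Xb`). Target `b` similarly.
`inj`: let `ρ g` act trivially. If `g ∉ zpowers s₀`: `ρ g • Ia ⊆ Dm am ap` (`dis`), disjoint from `Ia = ρ g • Ia ≠ ∅`.
If `g = s₀^n`, `n ≠ 0`: `ρ g • Ic ⊆ Xa` or `= Id`, disjoint from `Ic`. So `g = 1`.
`cos`: for `s₀`: `s₁, s₁²` (`s₁^n`, `n = 1, 2`, maps `Ia ⊆ Xa` into `Xb`); for `s₁`: `s₀, s₀²`; for `s₂`: `s₀, s₀²` (`s₀^n`, `n = 1, 2`, maps `Ic` into
`Xa`). `ok`: `ne` by `CO.dense` from positive triples; `dj` by `S_Dm`; `fx` by `Eqv`. -/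
def S_Pants : Prop :=
  ∀ (Γ X : Type) [Group Γ] [MulAction Γ X] (T : X → X → X → Prop), CO Γ T →
    ∀ (e : Fin 3 → Γ) (A B : Fin 3 → Set X) (z : Fin 3 → Fin 3 → X), PD T e A B z →
    St 0 3 ![fl T (e 0 * (e 1)⁻¹) (z 0 1) (z 1 0), fl T (e 1 * (e 2)⁻¹) (z 1 2) (z 2 1),
      fl T (e 2 * (e 0)⁻¹) (z 2 0) (z 0 2)]

end Pool.Agent.MPEF.U
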