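import Pool.Agent.Lib.MP_ef3f0f_gt.U.G.Spec
import Pool.Agent.Lib.MP_ef3f0f_gt.G.AW

set_option autoImplicit false

/-! # MP_ef3f0f_gt, Theorem U, part K: the amalgam combination lemma -/

namespace Pool.Agent.MPEF.U

open Pool.Agent.MPEF
open scoped Pointwise commutatorElement

/-- one half of the data of the amalgam lemma, seen in the big group -/
private structure UAmHf {Γ X Q κ : Type} [Group Γ] [MulAction Γ X] [Group Q]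
    (ρ : Q →* Γ) (K Z : Subgroup Q) (I I' : Set X) (b : κ → Q) (β : κ → FL Γ X) : Prop where
  sub : ∀ x ∈ K, x ∉ Z → ρ x • I ⊆ I'
  four : ∀ x ∈ K, x ∉ Z → ∃ w, w ∈ I' ∧ w ∉ ρ x • I
  arc : ∀ i, ∀ x ∈ K, ρ x • (β i).I ⊆ I'
  arc' : ∀ i, ∀ x ∈ K, ρ x • I ⊆ (β i).J
  inj : ∀ g ∈ K, (∀ x : X, ρ g • x = x) → g = 1
  dis : ∀ g ∈ K, ∀ i j, (i = j → g ∉ Subgroup.zpowers (b i)) → ρ g • (β i).I ⊆ (β j).J
  cos : ∀ i, ∃ x y, x ∉ Subgroup.zpowers (b i) ∧ y ∉ Subgroup.zpowers (b i) ∧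
    x⁻¹ * y ∉ Subgroup.zpowers (b i)

private theorem UAm_half {Γ X Q₁ Q κ : Type} [Group Γ] [MulAction Γ X] [Group Q₁] [Group Q]
    {ρ₁ : Q₁ →* Γ} {b : Option κ → Q₁} {β : Option κ → FL Γ X} {ρ : Q →* Γ} {j : Q₁ →* Q}
    (hS : Sys ρ₁ b β) (hρ : ∀ x, ρ (j x) = ρ₁ x) :
    UAmHf ρ j.range (Subgroup.zpowers (j (b none))) (β none).I (β none).J
      (fun i : κ => j (b (some i))) (fun i : κ => β (some i)) := by
  have hinj : Function.Injective j := by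
    rw [injective_iff_map_eq_one]
    intro x hx
    apply hS.inj
    intro y
    rw [← hρ, hx, map_one, one_smul]
  have hzp : ∀ x y : Q₁, j x ∈ Subgroup.zpowers (j y) ↔ x ∈ Subgroup.zpowers y := by
    intro x y
    rw [Subgroup.mem_zpowers_iff, Subgroup.mem_zpowers_iff]
    constructor
    · rintro ⟨n, hn⟩
      exact ⟨n, hinj (by rw [map_zpow, hn])⟩
    · rintro ⟨n, hn⟩
      exact ⟨n, by rw [← map_zpow, hn]⟩
  constructor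
  · rintro _ ⟨x, rfl⟩ hx
    rw [hρ]
    rw [hzp] at hx
    exact hS.dis x none none fun _ => hx
  · rintro _ ⟨x, rfl⟩ hx
    rw [hρ]
    rw [hzp] at hx
    obtain ⟨u, v, hu, hv, huv⟩ := hS.cos none
    obtain ⟨c, hc1, hc2⟩ : ∃ c, c ∉ Subgroup.zpowers (b none) ∧
        x⁻¹ * c ∉ Subgroup.zpowers (b none) := by
      by_cases h : x⁻¹ * u ∈ Subgroup.zpowers (b none)
      · refine ⟨v, hv, fun h' => huv ?_⟩
        have h2 := mul_mem (inv_mem h) h'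
        have h3 : (x⁻¹ * u)⁻¹ * (x⁻¹ * v) = u⁻¹ * v := by group
        rwa [h3] at h2
      · exact ⟨u, hu, h⟩
    obtain ⟨w, hw⟩ := (hS.ok none).ne
    refine ⟨ρ₁ c • w, hS.dis c none none (fun _ => hc1) ⟨w, hw, rfl⟩, ?_⟩
    rintro ⟨y, hy, hyw⟩
    have hyw' : ρ₁ x • y = ρ₁ c • w := hyw
    have h1 : ρ₁ (x⁻¹ * c) • w = y := by
      rw [map_mul, mul_smul, ← hyw', map_inv, inv_smul_smul]
    have h2 : y ∈ (β none).J := hS.dis (x⁻¹ * c) none none (fun _ => hc2) ⟨w, hw, h1⟩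
    exact Set.disjoint_left.mp (hS.ok none).dj hy h2
  · rintro i _ ⟨x, rfl⟩
    rw [hρ]
    exact hS.dis x (some i) none fun h => absurd h (by simp)
  · rintro i _ ⟨x, rfl⟩
    rw [hρ]
    exact hS.dis x none (some i) fun h => absurd h (by simp)
  · rintro _ ⟨x, rfl⟩ hx
    rw [hρ] at hx
    rw [hS.inj x hx, map_one]
  · rintro _ ⟨x, rfl⟩ i i' h
    rw [hρ]
    exact hS.dis x (some i) (some i') fun h1 h2 =>
      h (Option.some_injective _ h1) ((hzp _ _).mpr h2)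
  · intro i
    obtain ⟨x, y, hx, hy, hxy⟩ := hS.cos (some i)
    refine ⟨j x, j y, fun h => hx ((hzp _ _).mp h), fun h => hy ((hzp _ _).mp h), fun h => hxy ?_⟩
    rw [← map_inv, ← map_mul] at h
    exact (hzp _ _).mp h

private theorem UAm_swap {Q : Type} [Group Q] {K₁ K₂ Z : Subgroup Q} {s e : Bool} {g : Q}
    (h : AW K₁ K₂ Z s e g) : AW K₂ K₁ Z (!s) (!e) g := by
  induction h with
  | one₁ x hx hxZ => exact AW.one₂ x hx hxZ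
  | one₂ x hx hxZ => exact AW.one₁ x hx hxZ
  | cons₁ x g e hx hxZ _ ih => exact AW.cons₂ x g _ hx hxZ ih
  | cons₂ x g e hx hxZ _ ih => exact AW.cons₁ x g _ hx hxZ ih

/-- the image of a set `V` which all elements of `K₁` move into `I₂` -/
private theorem UAm_reach {Γ X Q : Type} [Group Γ] [MulAction Γ X]
    [Group Q] {ρ : Q →* Γ} {K₁ K₂ Z : Subgroup Q} {I₁ I₂ : Set X}
    (h1 : ∀ x ∈ K₁, x ∉ Z → ρ x • I₁ ⊆ I₂)
    (h2 : ∀ x ∈ K₂, x ∉ Z → ρ x • I₂ ⊆ I₁)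
    {V : Set X} (hV : ∀ x ∈ K₁, ρ x • V ⊆ I₂) {s e : Bool} {g : Q}
    (h : AW K₁ K₂ Z s e g) :
    (s = false ∧ g ∈ K₁) ∨
    (s = false ∧ ∃ x ∈ K₁, x ∉ Z ∧ ρ g • V ⊆ ρ x • I₁) ∨
    (s = true ∧ ∃ x ∈ K₂, x ∉ Z ∧ ρ g • V ⊆ ρ x • I₂) := by
  have key : ∀ (x g : Q) (S : Set X), ρ g • V ⊆ S → ρ (x * g) • V ⊆ ρ x • S := by
    intro x g S hgS
    rw [map_mul, mul_smul]
    exact Set.smul_set_mono hgS
  induction h with
  | one₁ x hx hxZ => exact Or.inl ⟨rfl, hx⟩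
  | one₂ x hx hxZ =>
    refine Or.inr (Or.inr ⟨rfl, x, hx, hxZ, ?_⟩)
    have := hV 1 (one_mem _)
    rw [map_one, one_smul] at this
    exact Set.smul_set_mono this
  | cons₁ x g e hx hxZ _ ih =>
    rcases ih with ⟨hf, _⟩ | ⟨hf, _⟩ | ⟨_, y, hy, hyZ, hg⟩
    · exact absurd hf (by decide)
    · exact absurd hf (by decide)
    · exact Or.inr (Or.inl ⟨rfl, x, hx, hxZ, key _ _ _ (hg.trans (h2 y hy hyZ))⟩)
  | cons₂ x g e hx hxZ _ ih =>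
    rcases ih with ⟨_, hg⟩ | ⟨_, y, hy, hyZ, hg⟩ | ⟨hf, _⟩
    · exact Or.inr (Or.inr ⟨rfl, x, hx, hxZ, key _ _ _ (hV g hg)⟩)
    · exact Or.inr (Or.inr ⟨rfl, x, hx, hxZ, key _ _ _ (hg.trans (h1 y hy hyZ))⟩)
    · exact absurd hf (by decide)

/-- the image of `I₂` (last letter in `K₂`) -/
private theorem UAm_word {Γ X Q : Type} [Group Γ] [MulAction Γ X]
    [Group Q] {ρ : Q →* Γ} {K₁ K₂ Z : Subgroup Q} {I₁ I₂ : Set X}
    (h1 : ∀ x ∈ K₁, x ∉ Z → ρ x • I₁ ⊆ I₂)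
    (h2 : ∀ x ∈ K₂, x ∉ Z → ρ x • I₂ ⊆ I₁)
    {s e : Bool} {g : Q} (h : AW K₁ K₂ Z s e g) (he : e = true) :
    (s = false ∧ ∃ x ∈ K₁, x ∉ Z ∧ ρ g • I₂ ⊆ ρ x • I₁) ∨
    (s = true ∧ ∃ x ∈ K₂, x ∉ Z ∧ ρ g • I₂ ⊆ ρ x • I₂) := by
  have key : ∀ (x g : Q) (S : Set X), ρ g • I₂ ⊆ S → ρ (x * g) • I₂ ⊆ ρ x • S := by
    intro x g S hgS
    rw [map_mul, mul_smul]
    exact Set.smul_set_mono hgS
  induction h with
  | one₁ x hx hxZ => exact absurd he (by decide)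
  | one₂ x hx hxZ => exact Or.inr ⟨rfl, x, hx, hxZ, le_rfl⟩
  | cons₁ x g e hx hxZ _ ih =>
    rcases ih he with ⟨hf, _⟩ | ⟨_, y, hy, hyZ, hg⟩
    · exact absurd hf (by decide)
    · exact Or.inl ⟨rfl, x, hx, hxZ, key _ _ _ (hg.trans (h2 y hy hyZ))⟩
  | cons₂ x g e hx hxZ _ ih =>
    rcases ih he with ⟨_, y, hy, hyZ, hg⟩ | ⟨hf, _⟩
    · exact Or.inr ⟨rfl, x, hx, hxZ, key _ _ _ (hg.trans (h1 y hy hyZ))⟩
    · exact absurd hf (by decide)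

/-- an alternating word whose last letter is in `K₂` does not act trivially -/
private theorem UAm_nofix {Γ X Q κ₁ κ₂ : Type} [Group Γ] [MulAction Γ X]
    [Group Q] {ρ : Q →* Γ} {K₁ K₂ Z : Subgroup Q} {I₁ I₂ : Set X}
    {b₁ : κ₁ → Q} {β₁ : κ₁ → FL Γ X} {b₂ : κ₂ → Q} {β₂ : κ₂ → FL Γ X}
    (H1 : UAmHf ρ K₁ Z I₁ I₂ b₁ β₁) (H2 : UAmHf ρ K₂ Z I₂ I₁ b₂ β₂)
    (hdj : Disjoint I₂ I₁) (hne : I₂.Nonempty)
    {s : Bool} {g : Q} (h : AW K₁ K₂ Z s true g) (hf : ∀ x : X, ρ g • x = x) : False := by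
  have hf2 : ∀ w ∈ I₂, w ∈ ρ g • I₂ := fun w hw => ⟨w, hw, hf w⟩
  rcases UAm_word H1.sub H2.sub h rfl with ⟨_, x, hx, hxZ, hg⟩ | ⟨_, x, hx, hxZ, hg⟩
  · obtain ⟨w, hw1, hw2⟩ := H1.four x hx hxZ
    exact hw2 (hg (hf2 w hw1))
  · obtain ⟨w, hw⟩ := hne
    exact Set.disjoint_left.mp hdj hw (H2.sub x hx hxZ (hg (hf2 w hw)))

/-- the inclusions for a boundary of the first system -/
private theorem UAm_dis {Γ X Q κ₁ κ₂ : Type} [Group Γ] [MulAction Γ X]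
    [Group Q] {ρ : Q →* Γ} {K₁ K₂ Z : Subgroup Q} {I₁ I₂ : Set X}
    {b₁ : κ₁ → Q} {β₁ : κ₁ → FL Γ X} {b₂ : κ₂ → Q} {β₂ : κ₂ → FL Γ X}
    (H1 : UAmHf ρ K₁ Z I₁ I₂ b₁ β₁) (H2 : UAmHf ρ K₂ Z I₂ I₁ b₂ β₂) (hZ : Z ≤ K₁)
    {g : Q} (h : g ∈ Z ∨ ∃ s e, AW K₁ K₂ Z s e g) (i : κ₁) :
    (∀ i' : κ₁, (i = i' → g ∉ Subgroup.zpowers (b₁ i)) → ρ g • (β₁ i).I ⊆ (β₁ i').J) ∧
    (∀ i' : κ₂, ρ g • (β₁ i).I ⊆ (β₂ i').J) := by
  have h1J : ∀ i' : κ₁, I₁ ⊆ (β₁ i').J := by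
    intro i'
    have h1 := H1.arc' i' 1 (one_mem _)
    rwa [map_one, one_smul] at h1
  have h2J : ∀ i' : κ₂, I₂ ⊆ (β₂ i').J := by
    intro i'
    have h1 := H2.arc' i' 1 (one_mem _)
    rwa [map_one, one_smul] at h1
  have hK : g ∈ K₁ →
      (∀ i' : κ₁, (i = i' → g ∉ Subgroup.zpowers (b₁ i)) → ρ g • (β₁ i).I ⊆ (β₁ i').J) ∧
      (∀ i' : κ₂, ρ g • (β₁ i).I ⊆ (β₂ i').J) := by
    intro hg
    exact ⟨fun i' h => H1.dis g hg i i' h, fun i' => (H1.arc i g hg).trans (h2J i')⟩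
  rcases h with hg | ⟨s, e, hAW⟩
  · exact hK (hZ hg)
  · rcases UAm_reach H1.sub H2.sub (H1.arc i) hAW with ⟨_, hg⟩ | ⟨_, x, hx, hxZ, hg⟩ |
      ⟨_, x, hx, hxZ, hg⟩
    · exact hK hg
    · exact ⟨fun i' _ => hg.trans (H1.arc' i' x hx),
        fun i' => hg.trans ((H1.sub x hx hxZ).trans (h2J i'))⟩
    · exact ⟨fun i' _ => hg.trans ((H2.sub x hx hxZ).trans (h1J i')),
        fun i' => hg.trans (H2.arc' i' x hx)⟩

theorem tAmal : S_Amal := by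
  intro Γ X Q₁ Q₂ Q κ₁ κ₂ _ _ _ _ _ ρ₁ b₁ β₁ ρ₂ b₂ β₂ ρ j₁ j₂ hS1 hS2 hρ1 hρ2 hb hβ htop
  have hZe : Subgroup.zpowers (j₂ (b₂ none)) = Subgroup.zpowers (j₁ (b₁ none)) := by
    rw [hb, Subgroup.zpowers_inv]
  have H1 := UAm_half hS1 hρ1
  have H2 := UAm_half hS2 hρ2
  have hok := hS1.ok none
  rw [hZe, hβ, FL.inv_I, FL.inv_J] at H2
  have hZ1 : Subgroup.zpowers (j₁ (b₁ none)) ≤ j₁.range := by
    rw [Subgroup.zpowers_le]
    exact ⟨_, rfl⟩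
  have hZ2 : Subgroup.zpowers (j₁ (b₁ none)) ≤ j₂.range := by
    rw [← hZe, Subgroup.zpowers_le]
    exact ⟨_, rfl⟩
  have hw := tAW Q j₁.range j₂.range (Subgroup.zpowers (j₁ (b₁ none))) htop hZ1 hZ2
  have hw' : ∀ g : Q, g ∈ Subgroup.zpowers (j₁ (b₁ none)) ∨
      ∃ s e, AW j₂.range j₁.range (Subgroup.zpowers (j₁ (b₁ none))) s e g := by
    intro g
    rcases hw g with h | ⟨s, e, h⟩
    · exact Or.inl h
    · exact Or.inr ⟨!s, !e, UAm_swap h⟩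
  constructor
  · rintro (i | i)
    · change (β₁ (some i)).el = ρ (j₁ (b₁ (some i)))
      rw [hρ1]
      exact hS1.el _
    · change (β₂ (some i)).el = ρ (j₂ (b₂ (some i)))
      rw [hρ2]
      exact hS2.el _
  · rintro (i | i)
    · exact hS1.ok _
    · exact hS2.ok _
  · intro g hg
    rcases hw g with h | ⟨s, e, h⟩
    · exact H1.inj g (hZ1 h) hg
    · cases e with
      | true => exact (UAm_nofix H1 H2 hok.dj.symm hok.ne' h hg).elim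
      | false => exact (UAm_nofix H2 H1 hok.dj hok.ne (UAm_swap h) hg).elim
  · rintro g (i | i) (i' | i') h
    · exact (UAm_dis H1 H2 hZ1 (hw g) i).1 i' fun h1 => h (congrArg Sum.inl h1)
    · exact (UAm_dis H1 H2 hZ1 (hw g) i).2 i'
    · exact (UAm_dis H2 H1 hZ2 (hw' g) i).2 i'
    · exact (UAm_dis H2 H1 hZ2 (hw' g) i).1 i' fun h1 => h (congrArg Sum.inr h1)
  · rintro (i | i)
    · exact H1.cos i
    · exact H2.cos i

end Pool.Agent.MPEF.U
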