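import Pool.Agent.Lib.MP_ef3f0f_gt.U.G.Spec

set_option autoImplicit false

/-!
# Facts about diamonds of a partial cyclic order
-/

namespace Pool.Agent.MPEF.U

open scoped Pointwise commutatorElement
open Pool.Agent.MPEF

private lemma dm_cyc {Γ X : Type} [Group Γ] [MulAction Γ X] {T : X → X → X → Prop} (h : CO Γ T)
    (x y z : X) : T x y z ↔ T y z x :=
  ⟨fun a => h.cyc _ _ _ a, fun a => h.cyc _ _ _ (h.cyc _ _ _ a)⟩

private lemma dm_in {Γ X : Type} [Group Γ] [MulAction Γ X] {T : X → X → X → Prop} (h : CO Γ T)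
    {x y z s : X} (h1 : T x y z) (h2 : T y s z) : T x s z :=
  (dm_cyc h x s z).2 (h.trans y s z x h2 (h.cyc _ _ _ h1)).2

private lemma dm_smul {Γ X : Type} [Group Γ] [MulAction Γ X] {T : X → X → X → Prop} (h : CO Γ T)
    (g : Γ) (x y : X) : g • Dm T x y = Dm T (g • x) (g • y) := by
  ext z
  rw [Set.mem_smul_set_iff_inv_smul_mem]
  change T x (g⁻¹ • z) y ↔ T (g • x) z (g • y)
  rw [← h.inv g x (g⁻¹ • z) y, smul_inv_smul]

theorem tDm : S_Dm := by
  intro Γ X _ _ T h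
  refine ⟨dm_smul h, ?_, ?_, ?_, ?_, ?_, ?_, ?_, ?_, ?_⟩
  · intro x y z t h1 h2 s hs
    exact (h.trans x s z t (dm_in h h1 hs) h2).1
  · intro x z t h1 s hs
    exact (h.trans x s z t hs h1).1
  · intro x y z h1 s hs
    exact dm_in h h1 hs
  · intro x y
    rw [Set.disjoint_left]
    intro z h1 h2
    exact h.asym x y z (h.cyc _ _ _ (h.cyc _ _ _ h2)) h1
  · intro x x' y y' hx hy
    ext z
    change T x z y ↔ T x' z y'
    rw [hx z y, ← dm_cyc h y x' z, hy x' z, dm_cyc h y' x' z]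
  · intro g x y hxy u v
    have h1 : ∀ w, T (g • w) u v ↔ T w (g⁻¹ • u) (g⁻¹ • v) := fun w => by
      rw [← h.inv g w (g⁻¹ • u) (g⁻¹ • v), smul_inv_smul, smul_inv_smul]
    rw [h1, h1]
    exact hxy _ _
  · intro x x' u v hx
    refine ⟨?_, ?_⟩
    · rw [dm_cyc h u x v, dm_cyc h u x' v]
      exact hx v u
    · rw [← dm_cyc h x u v, ← dm_cyc h x' u v]
      exact hx u v
  · intro t l x y
    ext1
    · rfl
    · exact dm_smul h t x y
    · exact dm_smul h t y x
  · intro l x y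
    rfl

end Pool.Agent.MPEF.U
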