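import Pool.Agent.Lib.MP_ef3f0f_gt.U.G.Spec
import Pool.Agent.Lib.MP_ef3f0f_gt.G.HW

set_option autoImplicit false

/-! # MP_ef3f0f_gt, Theorem U, part K: the HNN combination lemma -/

namespace Pool.Agent.MPEF.U

open Pool.Agent.MPEF
open scoped Pointwise commutatorElement

/-- the index of the two glued boundaries -/
private def hnIx {κ : Type} : Bool → Option (Option κ)
  | true => none
  | false => some none

private theorem hn_ex {Q : Type} [Group Q] (Z : Subgroup Q)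
    (h : ∃ x y, x ∉ Z ∧ y ∉ Z ∧ x⁻¹ * y ∉ Z) (x : Q) : ∃ y, y ∉ Z ∧ x⁻¹ * y ∉ Z := by
  obtain ⟨a, c, ha, hc, hac⟩ := h
  by_cases h1 : x⁻¹ * a ∈ Z
  · refine ⟨c, hc, fun h2 => hac ?_⟩
    have h3 := Z.mul_mem (Z.inv_mem h1) h2
    have h4 : (x⁻¹ * a)⁻¹ * (x⁻¹ * c) = a⁻¹ * c := by group
    rwa [h4] at h3
  · exact ⟨a, ha, h1⟩

theorem tHNN : S_HNN := by
  intro Γ X Q₀ Q κ _ _ _ _ ρ₀ b β ρ j t hS hρ hb hβ htop
  have hinj : Function.Injective j := by
    rw [injective_iff_map_eq_one]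
    intro x hx
    apply hS.inj
    intro y
    rw [← hρ, hx, map_one, one_smul]
  have hzp : ∀ x y : Q₀, j x ∈ Subgroup.zpowers (j y) ↔ x ∈ Subgroup.zpowers y := by
    intro x y
    rw [Subgroup.mem_zpowers_iff, Subgroup.mem_zpowers_iff]
    constructor
    · rintro ⟨n, hn⟩
      exact ⟨n, hinj (by rw [map_zpow, hn])⟩
    · rintro ⟨n, hn⟩
      exact ⟨n, by rw [← map_zpow, hn]⟩
  have hb2' : t⁻¹ * j (b (some none)) * t = (j (b none))⁻¹ := by
    have h1 : j (b (some none)) = (t * j (b none) * t⁻¹)⁻¹ := by rw [hb, inv_inv]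
    rw [h1]
    group
  have hT : ∀ ε : Bool, ρ (tpow t ε) • (β (hnIx ε)).J = (β (hnIx (!ε))).I := by
    intro ε
    cases ε with
    | true =>
      have h1 := congrArg FL.J hβ
      rw [FL.smul_J, FL.inv_J] at h1
      exact h1
    | false =>
      have h1 := congrArg FL.I hβ
      rw [FL.smul_I, FL.inv_I] at h1
      change ρ t⁻¹ • (β (some none)).J = (β none).I
      rw [← h1, map_inv, inv_smul_smul]
  have hreach : ∀ (ε e : Bool) (w : Q),
      HW j.range (Subgroup.zpowers (j (b none))) (Subgroup.zpowers (j (b (some none)))) t ε e w →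
      ρ w • (β (hnIx e)).J ⊆ (β (hnIx (!ε))).I := by
    intro ε e w h
    induction h with
    | one ε => exact (hT ε).le
    | cons ε ε' e x g hx _ hZ hZ' ih =>
      obtain ⟨x', rfl⟩ := hx
      rw [map_mul, map_mul, mul_smul, mul_smul, ← hT ε]
      apply Set.smul_set_mono
      refine (Set.smul_set_mono ih).trans ?_
      rw [hρ]
      apply hS.dis
      intro h1 h2
      cases ε with
      | true =>
        cases ε' with
        | true => simp [hnIx] at h1
        | false => exact hZ rfl rfl ((hzp _ _).mpr h2)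
      | false =>
        cases ε' with
        | true => exact hZ' rfl rfl ((hzp _ _).mpr h2)
        | false => simp [hnIx] at h1
  have hnf := tHW Q j.range (Subgroup.zpowers (j (b none))) (Subgroup.zpowers (j (b (some none)))) t
    htop (by rw [Subgroup.zpowers_le]; exact ⟨_, rfl⟩) (by rw [Subgroup.zpowers_le]; exact ⟨_, rfl⟩)
    (by
      rintro z ⟨n, rfl⟩
      refine ⟨-n, ?_⟩
      change j (b (some none)) ^ (-n) = t * j (b none) ^ n * t⁻¹
      rw [← conj_zpow, hb, inv_zpow, zpow_neg])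
    (by
      rintro z ⟨n, rfl⟩
      refine ⟨-n, ?_⟩
      change j (b none) ^ (-n) = t⁻¹ * j (b (some none)) ^ n * t
      have h1 : (t⁻¹ * j (b (some none)) * t⁻¹⁻¹) ^ n = t⁻¹ * j (b (some none)) ^ n * t⁻¹⁻¹ :=
        conj_zpow
      rw [inv_inv, hb2', inv_zpow] at h1
      rw [zpow_neg, h1])
  constructor
  · intro i
    rw [hρ]
    exact hS.el _
  · intro i
    exact hS.ok _
  · intro g hg
    rcases hnf g with ⟨x, rfl⟩ | ⟨ε, e, _, ⟨a₀, rfl⟩, _, ⟨a₁, rfl⟩, w, hw, rfl⟩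
    · rw [hρ] at hg
      rw [hS.inj x hg, map_one]
    · exfalso
      obtain ⟨y, hy1, hy2⟩ := hn_ex _ (hS.cos (hnIx (!ε))) (a₁ * a₀)
      have h1 : ρ₀ y • (β (hnIx (!ε))).I ⊆ (β (hnIx e)).J := hS.dis y _ _ fun _ => hy1
      have h2 : (β (hnIx e)).J ⊆ ρ₀ (a₁ * a₀) • (β (hnIx (!ε))).I := by
        have h3 := Set.smul_set_mono (a := ρ₀ (a₁ * a₀)) (hreach ε e w hw)
        refine Set.Subset.trans ?_ h3
        intro p hp
        refine ⟨ρ w • p, ⟨p, hp, rfl⟩, ?_⟩
        have h4 := hg ((ρ₀ a₁)⁻¹ • p)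
        rw [map_mul, map_mul, mul_smul, mul_smul, hρ, hρ, smul_inv_smul] at h4
        change ρ₀ (a₁ * a₀) • ρ w • p = p
        rw [map_mul, mul_smul, h4, smul_inv_smul]
      have h3 : ρ₀ y • (β (hnIx (!ε))).I ⊆ ρ₀ (a₁ * a₀) • (β (hnIx (!ε))).J := by
        have h4 : ρ₀ ((a₁ * a₀)⁻¹ * y) • (β (hnIx (!ε))).I ⊆ (β (hnIx (!ε))).J :=
          hS.dis _ _ _ fun _ => hy2
        have h5 := Set.smul_set_mono (a := ρ₀ (a₁ * a₀)) h4
        rwa [← mul_smul, ← map_mul, mul_inv_cancel_left] at h5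
      have h4 : Disjoint (ρ₀ (a₁ * a₀) • (β (hnIx (!ε))).I) (ρ₀ (a₁ * a₀) • (β (hnIx (!ε))).J) := by
        rw [Set.disjoint_smul_set]
        exact (hS.ok _).dj
      obtain ⟨p, hp⟩ := (hS.ok (hnIx (!ε))).ne
      have hp' : ρ₀ y • p ∈ ρ₀ y • (β (hnIx (!ε))).I := ⟨p, hp, rfl⟩
      exact Set.disjoint_left.mp h4 (h2 (h1 hp')) (h3 hp')
  · intro g i i' h
    rcases hnf g with ⟨x, rfl⟩ | ⟨ε, e, _, ⟨a₀, rfl⟩, _, ⟨a₁, rfl⟩, w, hw, rfl⟩
    · rw [hρ]
      apply hS.dis
      intro h1 h2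
      exact h (Option.some_injective _ (Option.some_injective _ h1)) ((hzp _ _).mpr h2)
    · rw [map_mul, map_mul, mul_smul, mul_smul, hρ, hρ]
      have h1 : ρ₀ a₁ • (β (some (some i))).I ⊆ (β (hnIx e)).J := by
        apply hS.dis
        intro h1
        cases e <;> simp [hnIx] at h1
      have h2 := Set.smul_set_mono (a := ρ₀ a₀)
        ((Set.smul_set_mono (a := ρ w) h1).trans (hreach ε e w hw))
      refine h2.trans ?_
      apply hS.dis
      intro h3
      cases ε <;> simp [hnIx] at h3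
  · intro i
    obtain ⟨x, y, hx, hy, hxy⟩ := hS.cos (some (some i))
    refine ⟨j x, j y, fun h => hx ((hzp _ _).mp h), fun h => hy ((hzp _ _).mp h), fun h => hxy ?_⟩
    rw [← map_inv, ← map_mul] at h
    exact (hzp _ _).mp h

end Pool.Agent.MPEF.U
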