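import Pool.Agent.Lib.MP_ef3f0f_gt.U.G.Spec
import Pool.Agent.Lib.MP_ef3f0f_gt.III.Spec

set_option autoImplicit false

/-!
# MP_ef3f0f_gt, Theorem U, part K: matching of framed loops
-/

namespace Pool.Agent.MPEF.U

open Pool.Agent.MPEF
open scoped Pointwise commutatorElement

/-- The class of a loop modulo the action. -/
private def Match_mk (Γ : Type) {L : Type} [Group Γ] [MulAction Γ L] (l : L) :
    MulAction.orbitRel.Quotient Γ L := Quotient.mk _ l

private theorem Match_mk_eq {Γ L : Type} [Group Γ] [MulAction Γ L] {a b : L} :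
    Match_mk Γ a = Match_mk Γ b ↔ ∃ t : Γ, t • a = b := by
  unfold Match_mk
  rw [Quotient.eq, MulAction.orbitRel_apply, MulAction.mem_orbit_iff]
  constructor
  · rintro ⟨t, ht⟩
    exact ⟨t⁻¹, by rw [← ht, inv_smul_smul]⟩
  · rintro ⟨t, ht⟩
    exact ⟨t⁻¹, by rw [← ht, inv_smul_smul]⟩

private theorem Match_inv {Γ L : Type} [Group Γ] [MulAction Γ L] {inv : L → L}
    (hi : ∀ (t : Γ) l, inv (t • l) = t • inv l) {a b : L} (h : Match_mk Γ a = Match_mk Γ b) :
    Match_mk Γ (inv a) = Match_mk Γ (inv b) := by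
  obtain ⟨t, rfl⟩ := Match_mk_eq.1 h
  exact Match_mk_eq.2 ⟨t, (hi t a).symm⟩

/-- The class of `l` minus the class of the inverse. -/
private noncomputable def Match_E (Γ : Type) {L : Type} [Group Γ] [MulAction Γ L] (inv : L → L)
    (l : L) : MulAction.orbitRel.Quotient Γ L →₀ ℚ :=
  Finsupp.single (Match_mk Γ l) 1 - Finsupp.single (Match_mk Γ (inv l)) 1

private theorem Match_E_inv {Γ L : Type} [Group Γ] [MulAction Γ L] {inv : L → L}
    (hii : ∀ l, inv (inv l) = l) (l : L) : Match_E Γ inv (inv l) = - Match_E Γ inv l := by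
  unfold Match_E
  rw [hii, neg_sub]

private theorem Match_E_smul {Γ L : Type} [Group Γ] [MulAction Γ L] {inv : L → L}
    (hi : ∀ (t : Γ) l, inv (t • l) = t • inv l) (t : Γ) (l : L) :
    Match_E Γ inv (t • l) = Match_E Γ inv l := by
  unfold Match_E
  have h : Match_mk Γ (t • l) = Match_mk Γ l := (Match_mk_eq.2 ⟨t, rfl⟩).symm
  rw [h, Match_inv hi h]

/-- Two maps with fibres of the same sizes differ by a bijection. -/
private theorem Match_bij {X Q : Type} [Fintype X] [DecidableEq Q] (f g : X → Q)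
    (h : ∀ q, Fintype.card {x // f x = q} = Fintype.card {x // g x = q}) :
    ∃ τ : X ≃ X, ∀ x, f (τ x) = g x := by
  classical
  refine ⟨(Equiv.sigmaFiberEquiv g).symm.trans ((Equiv.sigmaCongrRight fun q =>
    Fintype.equivOfCardEq (h q).symm).trans (Equiv.sigmaFiberEquiv f)), fun x => ?_⟩
  have key : ∀ y : Σ q, {x // f x = q}, f (Equiv.sigmaFiberEquiv f y) = y.1 := fun y => y.2.2
  exact key _

/-- The doubled involution. -/
private def Match_s {S : Type} (τ : S × Fin 3 ≃ S × Fin 3) (x : (S × Bool) × Fin 3) :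
    (S × Bool) × Fin 3 :=
  bif x.1.2 then (((τ (x.1.1, x.2)).1, false), (τ (x.1.1, x.2)).2)
  else (((τ.symm (x.1.1, x.2)).1, true), (τ.symm (x.1.1, x.2)).2)

private theorem Match_s_s {S : Type} (τ : S × Fin 3 ≃ S × Fin 3) (x : (S × Bool) × Fin 3) :
    Match_s τ (Match_s τ x) = x := by
  obtain ⟨⟨s, b⟩, j⟩ := x
  cases b
  · change (((τ ((τ.symm (s, j)).1, (τ.symm (s, j)).2)).1, false),
      (τ ((τ.symm (s, j)).1, (τ.symm (s, j)).2)).2) = ((s, false), j)
    rw [Prod.mk.eta, Equiv.apply_symm_apply]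
  · change (((τ.symm ((τ (s, j)).1, (τ (s, j)).2)).1, true),
      (τ.symm ((τ (s, j)).1, (τ (s, j)).2)).2) = ((s, true), j)
    rw [Prod.mk.eta, Equiv.symm_apply_apply]

private theorem Match_s_ne {S : Type} (τ : S × Fin 3 ≃ S × Fin 3) (x : (S × Bool) × Fin 3) :
    Match_s τ x ≠ x := by
  obtain ⟨⟨s, b⟩, j⟩ := x
  intro h
  have h1 := congrArg (fun y : (S × Bool) × Fin 3 => y.1.2) h
  cases b
  · exact absurd h1 (by
      change ¬ (true = false)
      decide)
  · exact absurd h1 (by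
      change ¬ (false = true)
      decide)

private theorem Match_s_conj {Γ L S : Type} [Group Γ] [MulAction Γ L] {inv : L → L}
    (hii : ∀ l, inv (inv l) = l)
    (hi : ∀ (t : Γ) l, inv (t • l) = t • inv l) (τ : S × Fin 3 ≃ S × Fin 3)
    (D : S × Fin 3 → L) (hτ : ∀ x, Match_mk Γ (D (τ x)) = Match_mk Γ (inv (D x)))
    (x : (S × Bool) × Fin 3) :
    Match_mk Γ (D (x.1.1, x.2)) =
      Match_mk Γ (inv (D ((Match_s τ x).1.1, (Match_s τ x).2))) := by
  obtain ⟨⟨s, b⟩, j⟩ := x
  cases b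
  · change Match_mk Γ (D (s, j)) =
      Match_mk Γ (inv (D ((τ.symm (s, j)).1, (τ.symm (s, j)).2)))
    have h := hτ (τ.symm (s, j))
    rwa [Equiv.apply_symm_apply] at h
  · change Match_mk Γ (D (s, j)) = Match_mk Γ (inv (D ((τ (s, j)).1, (τ (s, j)).2)))
    have h := Match_inv hi (hτ (s, j))
    rw [hii] at h
    exact h.symm

theorem tMatch (hG : S_Gordan) : S_Match := by
  intro Γ L ι _ _ _ inv hii hi d
  classical
  rcases hG (MulAction.orbitRel.Quotient Γ L →₀ ℚ) ι
    (fun i => Match_E Γ inv (d i 0) + Match_E Γ inv (d i 1) + Match_E Γ inv (d i 2)) with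
    ⟨f, hf⟩ | ⟨c, hc, hs⟩
  · left
    refine ⟨fun l => ((f (Match_E Γ inv l) : ℚ) : ℝ), fun t l => ?_, fun l => ?_, fun i => ?_⟩
    · simp only [Match_E_smul hi]
    · simp only [Match_E_inv hii, map_neg, Rat.cast_neg]
    · have h := hf i
      rw [map_add, map_add] at h
      have h' : (0 : ℝ) < ((f (Match_E Γ inv (d i 0)) + f (Match_E Γ inv (d i 1)) +
          f (Match_E Γ inv (d i 2)) : ℚ) : ℝ) := by exact_mod_cast h
      rw [Rat.cast_add, Rat.cast_add] at h'
      exact h'
  · right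
    -- the fibres
    have hfib : ∀ q : MulAction.orbitRel.Quotient Γ L,
        Fintype.card {x : (Σ i : ι, Fin (c i)) × Fin 3 // Match_mk Γ (d x.1.1 x.2) = q} =
        Fintype.card {x : (Σ i : ι, Fin (c i)) × Fin 3 //
          Match_mk Γ (inv (d x.1.1 x.2)) = q} := by
      intro q
      have hcard : ∀ F : ι → Fin 3 → MulAction.orbitRel.Quotient Γ L,
          (Fintype.card {x : (Σ i : ι, Fin (c i)) × Fin 3 // F x.1.1 x.2 = q} : ℚ) =
            ∑ i, (c i : ℚ) * ∑ j, (if F i j = q then (1 : ℚ) else 0) := by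
        intro F
        rw [Fintype.card_subtype, Finset.card_filter]
        push_cast
        rw [Fintype.sum_prod_type, Fintype.sum_sigma]
        refine Finset.sum_congr rfl fun i _ => ?_
        change ∑ _y : Fin (c i), ∑ j, (if F i j = q then (1 : ℚ) else 0) = _
        rw [Finset.sum_const, Finset.card_univ, Fintype.card_fin, nsmul_eq_mul]
      have h2 := DFunLike.congr_fun hs q
      rw [Finsupp.finsetSum_apply] at h2
      have h3 : ∀ i, (c i • (Match_E Γ inv (d i 0) + Match_E Γ inv (d i 1) +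
          Match_E Γ inv (d i 2))) q =
          (c i : ℚ) * ∑ j, (if Match_mk Γ (d i j) = q then (1 : ℚ) else 0) -
          (c i : ℚ) * ∑ j, (if Match_mk Γ (inv (d i j)) = q then (1 : ℚ) else 0) := by
        intro i
        rw [Finsupp.smul_apply, Finsupp.add_apply, Finsupp.add_apply, nsmul_eq_mul,
          Fin.sum_univ_three, Fin.sum_univ_three]
        unfold Match_E
        simp only [Finsupp.sub_apply, Finsupp.single_apply]
        ring
      simp only [h3] at h2
      rw [Finset.sum_sub_distrib, Finsupp.zero_apply, sub_eq_zero] at h2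
      have h4 : (Fintype.card {x : (Σ i : ι, Fin (c i)) × Fin 3 //
          Match_mk Γ (d x.1.1 x.2) = q} : ℚ) =
        Fintype.card {x : (Σ i : ι, Fin (c i)) × Fin 3 //
          Match_mk Γ (inv (d x.1.1 x.2)) = q} := by
        rw [hcard (fun i j => Match_mk Γ (d i j)), hcard (fun i j => Match_mk Γ (inv (d i j)))]
        exact h2
      exact_mod_cast h4
    obtain ⟨τ, hτ⟩ := Match_bij
      (fun x : (Σ i : ι, Fin (c i)) × Fin 3 => Match_mk Γ (d x.1.1 x.2))
      (fun x => Match_mk Γ (inv (d x.1.1 x.2))) hfib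
    obtain ⟨i₀, hi₀⟩ : ∃ i, c i ≠ 0 := by
      by_contra hcon
      push Not at hcon
      exact hc (funext hcon)
    let e := Fintype.equivFin ((Σ i : ι, Fin (c i)) × Bool)
    refine ⟨Fintype.card ((Σ i : ι, Fin (c i)) × Bool), ?_, fun a => (e.symm a).1.1,
      fun x => (e (Match_s τ (e.symm x.1, x.2)).1, (Match_s τ (e.symm x.1, x.2)).2), ?_, ?_, ?_⟩
    · exact Fintype.card_pos_iff.2 ⟨(⟨i₀, ⟨0, Nat.pos_of_ne_zero hi₀⟩⟩, true)⟩
    · intro x
      simp only [Equiv.symm_apply_apply, Prod.mk.eta, Match_s_s, Equiv.apply_symm_apply]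
    · intro x hx
      have h5 := Match_s_ne τ (e.symm x.1, x.2)
      apply h5
      have h6 : (Match_s τ (e.symm x.1, x.2)).1 = e.symm x.1 := by
        rw [Equiv.eq_symm_apply]
        exact congrArg Prod.fst hx
      have h7 : (Match_s τ (e.symm x.1, x.2)).2 = x.2 := congrArg Prod.snd hx
      exact Prod.ext h6 h7
    · intro x
      simp only [Equiv.symm_apply_apply]
      exact Match_mk_eq.1 (Match_s_conj hii hi τ
        (fun y : (Σ i : ι, Fin (c i)) × Fin 3 => d y.1.1 y.2) hτ (e.symm x.1, x.2))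

end Pool.Agent.MPEF.U
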