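import Pool.Agent.Lib.MP_ef3f0f_gt.U.G.Spec

set_option autoImplicit false

/-!
# MP_ef3f0f_gt, Theorem U, part K, module Oct: the positive octuple of the pants
-/

namespace Pool.Agent.MPEF.U

open Pool.Agent.MPEF
open scoped Pointwise commutatorElement

private theorem Oct_symm {X : Type} {T : X → X → X → Prop} {x y : X} (h : Eqv T x y) :
    Eqv T y x := fun u v => (h u v).symm

private theorem Oct_chain {Γ X : Type} [Group Γ] [MulAction Γ X] (T : X → X → X → Prop)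
    (hT : CO Γ T) (x : Fin 8 → X) (h : ∀ (i : ℕ) (hi : i + 1 < 8), 1 ≤ i →
      T (x 0) (x ⟨i, by omega⟩) (x ⟨i + 1, hi⟩)) :
    ∀ i j k : Fin 8, i < j → j < k → T (x i) (x j) (x k) := by
  have step : ∀ (j : ℕ) (hj : j < 8) (i : ℕ) (hij : i < j), 1 ≤ i →
      T (x 0) (x ⟨i, by omega⟩) (x ⟨j, hj⟩) := by
    intro j
    induction j with
    | zero => intro _ i hij _; omega
    | succ j ih =>
      intro hj i hij hi
      rcases Nat.lt_or_ge i j with hlt | hge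
      · exact (hT.trans _ _ _ _ (ih (by omega) i hlt hi) (h j hj (by omega))).1
      · have hEq : i = j := by omega
        subst hEq
        exact h i hj hi
  intro i j k hij hjk
  have hij' : i.val < j.val := hij
  have hjk' : j.val < k.val := hjk
  rcases Nat.eq_zero_or_pos i.val with h0 | h0
  · have hi0 : i = 0 := Fin.ext h0
    subst hi0
    exact step k.val k.isLt j.val hjk' (by omega)
  · exact (hT.trans _ _ _ _ (step j.val j.isLt i.val hij' h0)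
      (step k.val k.isLt j.val hjk' (by omega))).2

/-- Module Oct. -/
theorem tOct (hDm : S_Dm) : S_Oct := by
  intro Γ X _ _ T hT e A B z hP
  obtain ⟨-, -, -, -, -, -, esm, epos, -, -⟩ := hDm Γ X T hT
  have tr : ∀ {u v w u' v' w' : X}, T u v w → Eqv T u u' → Eqv T v v' → Eqv T w w' →
      T u' v' w' := by
    intro u v w u' v' w' h hu hv hw
    have k1 := (hu v w).1 h
    have k2 := (epos v v' u' w hv).1.1 k1
    exact (epos w w' u' v' hw).2.1 k2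
  have rf : ∀ x : X, Eqv T x x := fun x _ _ => Iff.rfl
  -- `(e i)⁻¹ z i j` is in the position of `(e j)⁻¹ z i j`
  have q : ∀ i j, i ≠ j → Eqv T ((e j)⁻¹ • z i j) ((e i)⁻¹ • z i j) := by
    intro i j hij
    have k := esm (e i)⁻¹ _ _ (hP.zfix i j hij)
    rwa [mul_smul, inv_smul_smul] at k
  have qB : ∀ i j, i ≠ j → (e j)⁻¹ • z i j ∈ B j := fun i j hij =>
    hP.mapA j i hij.symm _ (hP.zA i j hij)
  -- `e j (e i)⁻¹ z i j` is in the position of `z i j`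
  have r : ∀ i j, i ≠ j → Eqv T ((e j * (e i)⁻¹) • z i j) (z i j) := by
    intro i j hij
    have k := esm (e j * (e i)⁻¹) _ _ (hP.zfix i j hij)
    rw [← mul_smul, show e j * (e i)⁻¹ * (e i * (e j)⁻¹) = 1 by group, one_smul] at k
    exact Oct_symm k
  have n01 : (0 : Fin 3) ≠ 1 := by decide
  have n02 : (0 : Fin 3) ≠ 2 := by decide
  have n12 : (1 : Fin 3) ≠ 2 := by decide
  have c20B1 : (e 1)⁻¹ • z 2 0 ∈ B 1 := hP.mapA 1 2 n12 _ (hP.zA 2 0 n02.symm)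
  -- the six triples
  have t1 : T (z 2 0) (z 0 2) (z 0 1) := by
    have k := hT.cyc _ _ _ (hT.cyc _ _ _ (hP.posB _ (qB 2 0 n02.symm) _ (qB 0 1 n01) _
      (qB 0 2 n02)))
    have k2 := tr k (rf _) (q 0 2 n02) (q 0 1 n01)
    exact (hT.inv _ _ _ _).1 k2
  have t2 : T (z 2 0) (z 0 1) (z 1 0) :=
    hT.cyc _ _ _ (hT.cyc _ _ _ (hP.posA _ (hP.zA 0 1 n01) _ (hP.zA 1 0 n01.symm) _
      (hP.zA 2 0 n02.symm)))
  have ab : ∀ x : X, (e 0 * (e 1)⁻¹) • (e 1 * (e 2)⁻¹) • x = (e 0 * (e 2)⁻¹) • x := by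
    intro x
    rw [← mul_smul]
    congr 1
    group
  have d1 : Eqv T ((e 0 * (e 1)⁻¹) • (e 1 * (e 2)⁻¹) • z 2 0) (z 2 0) := by
    rw [ab]
    exact r 2 0 n02.symm
  have d2 : Eqv T ((e 0 * (e 1)⁻¹) • (e 1 * (e 2)⁻¹) • z 0 2) (z 0 2) := by
    rw [ab]
    exact hP.zfix 0 2 n02
  have t3 : T (z 2 0) (z 1 0) ((e 1 * (e 2)⁻¹) • z 2 0) := by
    have m0 : (e 0 * (e 1)⁻¹) • z 2 0 ∈ A 0 := by
      rw [mul_smul]
      exact hP.mapB 0 1 n01 _ c20B1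
    have k := hP.posA _ m0 _ (hP.zA 1 0 n01.symm) _ (hP.zA 2 0 n02.symm)
    have k2 := tr k (rf _) (Oct_symm (r 1 0 n01.symm)) (Oct_symm d1)
    exact (hT.inv _ _ _ _).1 k2
  have v1 : ∀ x : X, (e 1)⁻¹ • (e 1 * (e 2)⁻¹) • x = (e 2)⁻¹ • x := by
    intro x
    rw [mul_smul, inv_smul_smul]
  have t4 : T (z 2 0) ((e 1 * (e 2)⁻¹) • z 2 0) ((e 1 * (e 2)⁻¹) • z 0 2) := by
    have k := hT.cyc _ _ _ (hP.posB _ (qB 2 0 n02.symm) _ c20B1 _ (qB 0 2 n02))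
    have k2 := tr k (rf _) (q 2 0 n02.symm) (rf _)
    rw [← v1 (z 2 0), ← v1 (z 0 2)] at k2
    exact (hT.inv _ _ _ _).1 k2
  have t5 : T (z 2 0) ((e 1 * (e 2)⁻¹) • z 0 2) (z 1 2) := by
    have m2 : (e 2 * (e 1)⁻¹) • z 2 0 ∈ A 2 := by
      rw [mul_smul]
      exact hP.mapB 2 1 n12.symm _ c20B1
    have k := hT.cyc _ _ _ (hT.cyc _ _ _ (hP.posA _ (hP.zA 0 2 n02) _ (hP.zA 1 2 n12) _ m2))
    have k2 := tr k (rf _) (rf _) (Oct_symm (r 1 2 n12))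
    have w1 : z 0 2 = (e 2 * (e 1)⁻¹) • (e 1 * (e 2)⁻¹) • z 0 2 := by
      rw [← mul_smul, show e 2 * (e 1)⁻¹ * (e 1 * (e 2)⁻¹) = 1 by group, one_smul]
    have k3 : T ((e 2 * (e 1)⁻¹) • z 2 0) ((e 2 * (e 1)⁻¹) • (e 1 * (e 2)⁻¹) • z 0 2)
        ((e 2 * (e 1)⁻¹) • z 1 2) := by
      rw [← w1]
      exact k2
    exact (hT.inv _ _ _ _).1 k3
  have t6 : T (z 2 0) (z 1 2) (z 2 1) := by
    have k := hT.cyc _ _ _ (hT.cyc _ _ _ (hP.posB _ (qB 2 0 n02.symm) _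
      (qB 2 1 n12.symm) _ (qB 1 2 n12)))
    have k2 := tr k (q 2 0 n02.symm) (rf _) (q 2 1 n12.symm)
    exact (hT.inv _ _ _ _).1 k2
  refine ⟨Oct_chain T hT _ ?_, d1, d2⟩
  intro i hi h1
  have hi6 : i = 1 ∨ i = 2 ∨ i = 3 ∨ i = 4 ∨ i = 5 ∨ i = 6 := by omega
  rcases hi6 with rfl | rfl | rfl | rfl | rfl | rfl
  · exact t1
  · exact t2
  · exact t3
  · exact t4
  · exact t5
  · exact t6

end Pool.Agent.MPEF.U
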