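import Pool.Agent.Lib.MP_ef3f0f_gt.U.G.Spec

set_option autoImplicit false

/-!
# MP_ef3f0f_gt, Theorem U, part K, module PP: ping-pong for one generator
-/

namespace Pool.Agent.MPEF.U

open Pool.Agent.MPEF
open scoped Pointwise commutatorElement

private theorem PP_pow {Γ X : Type} [Group Γ] [MulAction Γ X] (b : Γ) (W U : Set X)
    (h1 : b • W ⊆ U) (h2 : b • U ⊆ U) (n : ℕ) : b ^ (n + 1) • W ⊆ U := by
  induction n with
  | zero => rw [zero_add, pow_one]; exact h1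
  | succ n ih =>
    rw [pow_succ', mul_smul]
    exact (Set.smul_set_mono ih).trans h2

private theorem PP_refl {X : Type} (T : X → X → X → Prop) (x : X) : Eqv T x x :=
  fun _ _ => Iff.rfl

private theorem PP_symm {X : Type} {T : X → X → X → Prop} {x y : X} (h : Eqv T x y) :
    Eqv T y x := fun u v => (h u v).symm

/-- Module PP. -/
theorem tPP (hDm : S_Dm) : S_PP := by
  intro Γ X _ _ T hT a x hpos h2 h3 h4 h5
  obtain ⟨dsm, dsub, dL, dR, -, dcg, esm, epos, -, -⟩ := hDm Γ X T hT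
  have tr : ∀ {u v w u' v' w' : X}, T u v w → Eqv T u u' → Eqv T v v' → Eqv T w w' →
      T u' v' w' := by
    intro u v w u' v' w' h hu hv hw
    have k1 := (hu v w).1 h
    have k2 := (epos v v' u' w hv).1.1 k1
    exact (epos w w' u' v' hw).2.1 k2
  have rf := PP_refl T
  -- the inverse images
  have inv0 : ∀ {u v : X}, Eqv T (a • u) v → Eqv T (a⁻¹ • v) u := by
    intro u v h
    have k := esm a⁻¹ _ _ h
    rw [inv_smul_smul] at k
    exact PP_symm k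
  have g0 := inv0 h4
  have g1 := inv0 h5
  have g2 := inv0 h2
  have g3 := inv0 h3
  have pa : ∀ i j k, i < j → j < k → T (a • x i) (a • x j) (a • x k) := fun i j k hij hjk =>
    (hT.inv a _ _ _).2 (hpos i j k hij hjk)
  have pb : ∀ i j k, i < j → j < k → T (a⁻¹ • x i) (a⁻¹ • x j) (a⁻¹ • x k) :=
    fun i j k hij hjk => (hT.inv a⁻¹ _ _ _).2 (hpos i j k hij hjk)
  have A1 : T (x 1) (a • x 0) (x 2) :=
    hT.cyc _ _ _ (hT.cyc _ _ _ (tr (pa 0 2 5 (by decide) (by decide)) (rf _) h2 h5))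
  have A2 : T (x 1) (a • x 1) (x 2) :=
    hT.cyc _ _ _ (hT.cyc _ _ _ (tr (pa 1 2 5 (by decide) (by decide)) (rf _) h2 h5))
  have A3 : T (x 1) (a • x 0) (a • x 1) :=
    hT.cyc _ _ _ (hT.cyc _ _ _ (tr (pa 0 1 5 (by decide) (by decide)) (rf _) (rf _) h5))
  have B1 : T (x 3) (a⁻¹ • x 4) (x 4) :=
    hT.cyc _ _ _ (tr (pb 0 3 4 (by decide) (by decide)) g0 g3 (rf _))
  have B2 : T (x 3) (a⁻¹ • x 5) (x 4) :=
    hT.cyc _ _ _ (tr (pb 0 3 5 (by decide) (by decide)) g0 g3 (rf _))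
  have B3 : T (x 3) (a⁻¹ • x 4) (a⁻¹ • x 5) :=
    tr (pb 3 4 5 (by decide) (by decide)) g3 (rf _) (rf _)
  have e1 : a • Dm T (x 4) (x 5) = Dm T (x 0) (x 1) := by
    rw [dsm]; exact dcg _ _ _ _ h4 h5
  have e2 : a⁻¹ • Dm T (x 0) (x 1) = Dm T (x 4) (x 5) := by
    rw [← e1, inv_smul_smul]
  have aXb : a • Dm T (x 5) (x 0) ⊆ Dm T (x 1) (x 2) := by
    rw [dsm, dcg _ (x 1) _ (a • x 0) h5 (rf _)]
    exact dL _ _ _ A1
  have aIc : a • Dm T (x 0) (x 1) ⊆ Dm T (x 1) (x 2) := by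
    rw [dsm]; exact dsub _ _ _ _ A3 A2
  have aU : a • Dm T (x 1) (x 2) ⊆ Dm T (x 1) (x 2) := by
    rw [dsm, dcg _ (a • x 1) _ (x 2) (rf _) h2]
    exact dR _ _ _ A2
  have bXb : a⁻¹ • Dm T (x 5) (x 0) ⊆ Dm T (x 3) (x 4) := by
    rw [dsm, dcg _ (a⁻¹ • x 5) _ (x 4) (rf _) g0]
    exact dR _ _ _ B2
  have bId : a⁻¹ • Dm T (x 4) (x 5) ⊆ Dm T (x 3) (x 4) := by
    rw [dsm]; exact dsub _ _ _ _ B3 B2
  have bV : a⁻¹ • Dm T (x 3) (x 4) ⊆ Dm T (x 3) (x 4) := by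
    rw [dsm, dcg _ (x 3) _ (a⁻¹ • x 4) g3 (rf _)]
    exact dL _ _ _ B1
  refine ⟨e1, fun n hn => ?_, fun n hn => ?_⟩
  · obtain ⟨k, hk⟩ := Int.eq_ofNat_of_zero_le (sub_nonneg.2 hn)
    have hk' : n = ((k + 1 : ℕ) : ℤ) := by push_cast; omega
    subst hk'
    rw [zpow_natCast]
    refine ⟨PP_pow a _ _ aXb aU k, PP_pow a _ _ aIc aU k, fun h => ?_⟩
    obtain ⟨m, rfl⟩ : ∃ m, k = m + 1 := ⟨k - 1, by omega⟩
    rw [pow_succ, mul_smul, e1]
    exact PP_pow a _ _ aIc aU m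
  · obtain ⟨k, hk⟩ := Int.eq_ofNat_of_zero_le (show 0 ≤ -1 - n by omega)
    have hk' : n = -((k + 1 : ℕ) : ℤ) := by push_cast; omega
    subst hk'
    rw [zpow_neg, zpow_natCast, ← inv_pow]
    refine ⟨PP_pow _ _ _ bXb bV k, PP_pow _ _ _ bId bV k, fun h => ?_⟩
    obtain ⟨m, rfl⟩ : ∃ m, k = m + 1 := ⟨k - 1, by omega⟩
    rw [pow_succ, mul_smul, e2]
    exact PP_pow _ _ _ bId bV m

end Pool.Agent.MPEF.U
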