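import Pool.Agent.Lib.MP_ef3f0f_gt.U.G.Spec
import Pool.Agent.Lib.MP_ef3f0f_gt.G.sf
import Pool.Agent.Lib.MP_ef3f0f_gt.G.AW

set_option autoImplicit false

/-!
# MP_ef3f0f_gt, Theorem U, part K: the pants lemma
-/

namespace Pool.Agent.MPEF.U

open Pool.Agent.MPEF
open scoped Pointwise commutatorElement

/-! ### 1. Ping-pong, abstractly -/

/-- Ping-pong data for a group generated by `x`, `y`, on the level of sets. -/
private structure PPD {Q Γ X : Type} [Group Q] [Group Γ] [MulAction Γ X] (φ : Q →* Γ) (x y : Q)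
    (Xa Xb Ic Id Ia Ib Ja Jb Jc : Set X) : Prop where
  gen : ∀ g : Q, g = 1 ∨ ∃ s e, AW (Subgroup.zpowers x) (Subgroup.zpowers y) ⊥ s e g
  xb : ∀ n : ℤ, n ≠ 0 → φ (x ^ n) • Xb ⊆ Xa
  xc : ∀ n : ℤ, n ≠ 0 → φ (x ^ n) • Ic ⊆ Xa ∨ (n = -1 ∧ φ (x ^ n) • Ic = Id)
  xd : ∀ n : ℤ, n ≠ 0 → φ (x ^ n) • Id ⊆ Xa ∨ (n = 1 ∧ φ (x ^ n) • Id = Ic)
  ya : ∀ n : ℤ, n ≠ 0 → φ (y ^ n) • Xa ⊆ Xb
  yc : ∀ n : ℤ, n ≠ 0 → φ (y ^ n) • Ic ⊆ Xb ∨ (n = 1 ∧ φ (y ^ n) • Ic = Id)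
  yd : ∀ n : ℤ, n ≠ 0 → φ (y ^ n) • Id ⊆ Xb ∨ (n = -1 ∧ φ (y ^ n) • Id = Ic)
  fa : ∀ n : ℤ, φ (x ^ n) • Ia = Ia
  fja : ∀ n : ℤ, φ (x ^ n) • Ja = Ja
  fb : ∀ n : ℤ, φ (y ^ n) • Ib = Ib
  fjb : ∀ n : ℤ, φ (y ^ n) • Jb = Jb
  fc : ∀ n : ℤ, φ ((x * y) ^ n) • Ic = Ic
  ia : Ia ⊆ Xa
  ib : Ib ⊆ Xb
  ba : Xb ⊆ Ja
  ca : Ic ⊆ Ja
  da : Id ⊆ Ja
  ab : Xa ⊆ Jb
  cb : Ic ⊆ Jb
  db : Id ⊆ Jb
  ac : Xa ⊆ Jc
  bc : Xb ⊆ Jc
  dc : Id ⊆ Jc
  dab : Disjoint Xa Xb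
  dac : Disjoint Xa Ic
  dcd : Disjoint Ic Id
  dia : Disjoint Ia Ja
  na : Ia.Nonempty
  nb : Ib.Nonempty
  nc : Ic.Nonempty

section

variable {Q Γ X : Type} [Group Q] [Group Γ] [MulAction Γ X] {φ : Q →* Γ} {x y : Q}
  {Xa Xb Ic Id Ia Ib Ja Jb Jc : Set X}

private theorem pp_let {x g : Q} (hg : g ∈ Subgroup.zpowers x) (h1 : g ∉ (⊥ : Subgroup Q)) :
    ∃ n : ℤ, n ≠ 0 ∧ x ^ n = g := by
  obtain ⟨n, rfl⟩ := Subgroup.mem_zpowers_iff.mp hg
  refine ⟨n, ?_, rfl⟩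
  rintro rfl
  exact h1 (by rw [zpow_zero]; exact Subgroup.mem_bot.mpr rfl)

/-- The sets in which the images lie. -/
private def ppS (Xa Xb : Set X) (s : Bool) : Set X := if s then Xb else Xa

private theorem pp_mul (φ : Q →* Γ) (g h : Q) (S : Set X) : φ (g * h) • S = φ g • φ h • S := by
  rw [map_mul, mul_smul]

private theorem pp_step {S T U : Set X} {g h : Q} (h1 : φ h • S ⊆ T) (h2 : φ g • T ⊆ U) :
    φ (g * h) • S ⊆ U := by
  rw [pp_mul]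
  exact (Set.smul_set_mono h1).trans h2

private theorem pp_zxb (H : PPD φ x y Xa Xb Ic Id Ia Ib Ja Jb Jc) {z : Q}
    (hz : z ∈ Subgroup.zpowers x) (h1 : z ∉ (⊥ : Subgroup Q)) : φ z • Xb ⊆ Xa := by
  obtain ⟨n, hn, rfl⟩ := pp_let hz h1
  exact H.xb n hn

private theorem pp_zya (H : PPD φ x y Xa Xb Ic Id Ia Ib Ja Jb Jc) {z : Q}
    (hz : z ∈ Subgroup.zpowers y) (h1 : z ∉ (⊥ : Subgroup Q)) : φ z • Xa ⊆ Xb := by
  obtain ⟨n, hn, rfl⟩ := pp_let hz h1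
  exact H.ya n hn

private theorem pp_fa (H : PPD φ x y Xa Xb Ic Id Ia Ib Ja Jb Jc) {z : Q}
    (hz : z ∈ Subgroup.zpowers x) : φ z • Ia = Ia ∧ φ z • Ja = Ja := by
  obtain ⟨n, rfl⟩ := Subgroup.mem_zpowers_iff.mp hz
  exact ⟨H.fa n, H.fja n⟩

private theorem pp_fb (H : PPD φ x y Xa Xb Ic Id Ia Ib Ja Jb Jc) {z : Q}
    (hz : z ∈ Subgroup.zpowers y) : φ z • Ib = Ib ∧ φ z • Jb = Jb := by
  obtain ⟨n, rfl⟩ := Subgroup.mem_zpowers_iff.mp hz
  exact ⟨H.fb n, H.fjb n⟩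

/-- Words applied to the first arc. -/
private theorem pp_awa (H : PPD φ x y Xa Xb Ic Id Ia Ib Ja Jb Jc) {s e : Bool} {g : Q}
    (h : AW (Subgroup.zpowers x) (Subgroup.zpowers y) ⊥ s e g) :
    g ∈ Subgroup.zpowers x ∨ φ g • Ia ⊆ ppS Xa Xb s := by
  induction h with
  | one₁ z h1 h2 => exact Or.inl h1
  | one₂ z h1 h2 => exact Or.inr ((Set.smul_set_mono H.ia).trans (pp_zya H h1 h2))
  | cons₁ z g e h1 h2 h3 ih =>
    rcases ih with ih | ih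
    · exact Or.inl (mul_mem h1 ih)
    · exact Or.inr (pp_step ih (pp_zxb H h1 h2))
  | cons₂ z g e h1 h2 h3 ih =>
    rcases ih with ih | ih
    · exact Or.inr (pp_step ((pp_fa H ih).1.subset.trans H.ia) (pp_zya H h1 h2))
    · exact Or.inr (pp_step ih (pp_zya H h1 h2))

/-- Words applied to the second arc. -/
private theorem pp_awb (H : PPD φ x y Xa Xb Ic Id Ia Ib Ja Jb Jc) {s e : Bool} {g : Q}
    (h : AW (Subgroup.zpowers x) (Subgroup.zpowers y) ⊥ s e g) :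
    g ∈ Subgroup.zpowers y ∨ φ g • Ib ⊆ ppS Xa Xb s := by
  induction h with
  | one₂ z h1 h2 => exact Or.inl h1
  | one₁ z h1 h2 => exact Or.inr ((Set.smul_set_mono H.ib).trans (pp_zxb H h1 h2))
  | cons₂ z g e h1 h2 h3 ih =>
    rcases ih with ih | ih
    · exact Or.inl (mul_mem h1 ih)
    · exact Or.inr (pp_step ih (pp_zya H h1 h2))
  | cons₁ z g e h1 h2 h3 ih =>
    rcases ih with ih | ih
    · exact Or.inr (pp_step ((pp_fb H ih).1.subset.trans H.ib) (pp_zxb H h1 h2))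
    · exact Or.inr (pp_step ih (pp_zxb H h1 h2))

/-- Words applied to the third arc. -/
private theorem pp_awc (H : PPD φ x y Xa Xb Ic Id Ia Ib Ja Jb Jc) {s e : Bool} {g : Q}
    (h : AW (Subgroup.zpowers x) (Subgroup.zpowers y) ⊥ s e g) :
    φ g • Ic ⊆ ppS Xa Xb s ∨ (φ g • Ic = Ic ∧ g ∈ Subgroup.zpowers (x * y)) ∨
      (φ g • Ic = Id ∧ y⁻¹ * g ∈ Subgroup.zpowers (x * y)) := by
  have hxy : x * y ∈ Subgroup.zpowers (x * y) := Subgroup.mem_zpowers _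
  induction h with
  | one₁ z h1 h2 =>
    obtain ⟨n, hn, rfl⟩ := pp_let h1 h2
    rcases H.xc n hn with h | ⟨h, h'⟩
    · exact Or.inl h
    · refine Or.inr (Or.inr ⟨h', ?_⟩)
      have h3 : y⁻¹ * x ^ n = (x * y)⁻¹ := by rw [h]; group
      rw [h3]
      exact inv_mem hxy
  | one₂ z h1 h2 =>
    obtain ⟨n, hn, rfl⟩ := pp_let h1 h2
    rcases H.yc n hn with h | ⟨h, h'⟩
    · exact Or.inl h
    · refine Or.inr (Or.inr ⟨h', ?_⟩)
      have h3 : y⁻¹ * y ^ n = 1 := by rw [h]; group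
      rw [h3]
      exact one_mem _
  | cons₁ z g e h1 h2 h3 ih =>
    rcases ih with ih | ⟨ih, ih'⟩ | ⟨ih, ih'⟩
    · exact Or.inl (pp_step ih (pp_zxb H h1 h2))
    · obtain ⟨n, hn, rfl⟩ := pp_let h1 h2
      rcases H.xc n hn with h | ⟨h, h'⟩
      · exact Or.inl (pp_step ih.subset h)
      · refine Or.inr (Or.inr ⟨by rw [pp_mul, ih, h'], ?_⟩)
        have h4 : y⁻¹ * (x ^ n * g) = (x * y)⁻¹ * g := by rw [h]; group
        rw [h4]
        exact mul_mem (inv_mem hxy) ih'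
    · obtain ⟨n, hn, rfl⟩ := pp_let h1 h2
      rcases H.xd n hn with h | ⟨h, h'⟩
      · exact Or.inl (pp_step ih.subset h)
      · refine Or.inr (Or.inl ⟨by rw [pp_mul, ih, h'], ?_⟩)
        have h4 : x ^ n * g = (x * y) * (y⁻¹ * g) := by rw [h]; group
        rw [h4]
        exact mul_mem hxy ih'
  | cons₂ z g e h1 h2 h3 ih =>
    rcases ih with ih | ⟨ih, ih'⟩ | ⟨ih, ih'⟩
    · exact Or.inl (pp_step ih (pp_zya H h1 h2))
    · obtain ⟨n, hn, rfl⟩ := pp_let h1 h2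
      rcases H.yc n hn with h | ⟨h, h'⟩
      · exact Or.inl (pp_step ih.subset h)
      · refine Or.inr (Or.inr ⟨by rw [pp_mul, ih, h'], ?_⟩)
        have h4 : y⁻¹ * (y ^ n * g) = g := by rw [h]; group
        rw [h4]
        exact ih'
    · obtain ⟨n, hn, rfl⟩ := pp_let h1 h2
      rcases H.yd n hn with h | ⟨h, h'⟩
      · exact Or.inl (pp_step ih.subset h)
      · refine Or.inr (Or.inl ⟨by rw [pp_mul, ih, h'], ?_⟩)
        have h4 : y ^ n * g = y⁻¹ * g := by rw [h]; group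
        rw [h4]
        exact ih'

/-- Target `a`: a set mapped into `Ja` by `1` and by all words with first letter in `zpowers y`. -/
private theorem pp_ta (H : PPD φ x y Xa Xb Ic Id Ia Ib Ja Jb Jc) {W : Set X} (h0 : W ⊆ Ja)
    (h1 : ∀ e g, AW (Subgroup.zpowers x) (Subgroup.zpowers y) ⊥ true e g → φ g • W ⊆ Ja)
    (g : Q) : φ g • W ⊆ Ja := by
  have hz : ∀ z ∈ Subgroup.zpowers x, φ z • Ja ⊆ Ja := fun z hz => (pp_fa H hz).2.subset
  rcases H.gen g with rfl | ⟨s, e, h⟩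
  · rw [map_one, one_smul]
    exact h0
  · cases h with
    | one₁ z h2 h3 => exact (Set.smul_set_mono h0).trans (hz _ h2)
    | one₂ z h2 h3 => exact h1 _ _ (AW.one₂ _ h2 h3)
    | cons₁ z g e h2 h3 h4 => exact pp_step (h1 _ _ h4) (hz _ h2)
    | cons₂ z g e h2 h3 h4 => exact h1 _ _ (AW.cons₂ _ _ _ h2 h3 h4)

/-- Target `b`. -/
private theorem pp_tb (H : PPD φ x y Xa Xb Ic Id Ia Ib Ja Jb Jc) {W : Set X} (h0 : W ⊆ Jb)
    (h1 : ∀ e g, AW (Subgroup.zpowers x) (Subgroup.zpowers y) ⊥ false e g → φ g • W ⊆ Jb)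
    (g : Q) : φ g • W ⊆ Jb := by
  have hz : ∀ z ∈ Subgroup.zpowers y, φ z • Jb ⊆ Jb := fun z hz => (pp_fb H hz).2.subset
  rcases H.gen g with rfl | ⟨s, e, h⟩
  · rw [map_one, one_smul]
    exact h0
  · cases h with
    | one₂ z h2 h3 => exact (Set.smul_set_mono h0).trans (hz _ h2)
    | one₁ z h2 h3 => exact h1 _ _ (AW.one₁ _ h2 h3)
    | cons₂ z g e h2 h3 h4 => exact pp_step (h1 _ _ h4) (hz _ h2)
    | cons₁ z g e h2 h3 h4 => exact h1 _ _ (AW.cons₁ _ _ _ h2 h3 h4)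

private theorem pp_aa (H : PPD φ x y Xa Xb Ic Id Ia Ib Ja Jb Jc) (g : Q)
    (hg : g ∉ Subgroup.zpowers x) : φ g • Ia ⊆ Ja := by
  have key : ∀ e g', AW (Subgroup.zpowers x) (Subgroup.zpowers y) ⊥ true e g' →
      g' ∉ Subgroup.zpowers x → φ g' • Ia ⊆ Ja := fun e g' h1 h2 =>
    ((pp_awa H h1).resolve_left h2).trans H.ba
  rcases H.gen g with rfl | ⟨s, e, h⟩
  · exact absurd (one_mem _) hg
  · cases h with
    | one₁ z h2 h3 => exact absurd h2 hg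
    | one₂ z h2 h3 => exact key _ _ (AW.one₂ _ h2 h3) hg
    | cons₁ z g e h2 h3 h4 =>
      exact pp_step (key _ _ h4 fun h5 => hg (mul_mem h2 h5)) (pp_fa H h2).2.subset
    | cons₂ z g e h2 h3 h4 => exact key _ _ (AW.cons₂ _ _ _ h2 h3 h4) hg

private theorem pp_bb (H : PPD φ x y Xa Xb Ic Id Ia Ib Ja Jb Jc) (g : Q)
    (hg : g ∉ Subgroup.zpowers y) : φ g • Ib ⊆ Jb := by
  have key : ∀ e g', AW (Subgroup.zpowers x) (Subgroup.zpowers y) ⊥ false e g' →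
      g' ∉ Subgroup.zpowers y → φ g' • Ib ⊆ Jb := fun e g' h1 h2 =>
    ((pp_awb H h1).resolve_left h2).trans H.ab
  rcases H.gen g with rfl | ⟨s, e, h⟩
  · exact absurd (one_mem _) hg
  · cases h with
    | one₂ z h2 h3 => exact absurd h2 hg
    | one₁ z h2 h3 => exact key _ _ (AW.one₁ _ h2 h3) hg
    | cons₂ z g e h2 h3 h4 =>
      exact pp_step (key _ _ h4 fun h5 => hg (mul_mem h2 h5)) (pp_fb H h2).2.subset
    | cons₁ z g e h2 h3 h4 => exact key _ _ (AW.cons₁ _ _ _ h2 h3 h4) hg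

private theorem pp_ba (H : PPD φ x y Xa Xb Ic Id Ia Ib Ja Jb Jc) (g : Q) : φ g • Ib ⊆ Ja := by
  refine pp_ta H (H.ib.trans H.ba) (fun e g' h => ?_) g
  rcases pp_awb H h with h1 | h1
  · exact (pp_fb H h1).1.subset.trans (H.ib.trans H.ba)
  · exact h1.trans H.ba

private theorem pp_ab (H : PPD φ x y Xa Xb Ic Id Ia Ib Ja Jb Jc) (g : Q) : φ g • Ia ⊆ Jb := by
  refine pp_tb H (H.ia.trans H.ab) (fun e g' h => ?_) g
  rcases pp_awa H h with h1 | h1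
  · exact (pp_fa H h1).1.subset.trans (H.ia.trans H.ab)
  · exact h1.trans H.ab

private theorem pp_ca (H : PPD φ x y Xa Xb Ic Id Ia Ib Ja Jb Jc) (g : Q) : φ g • Ic ⊆ Ja := by
  refine pp_ta H H.ca (fun e g' h => ?_) g
  rcases pp_awc H h with h1 | ⟨h1, -⟩ | ⟨h1, -⟩
  · exact h1.trans H.ba
  · exact h1.subset.trans H.ca
  · exact h1.subset.trans H.da

private theorem pp_cb (H : PPD φ x y Xa Xb Ic Id Ia Ib Ja Jb Jc) (g : Q) : φ g • Ic ⊆ Jb := by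
  refine pp_tb H H.cb (fun e g' h => ?_) g
  rcases pp_awc H h with h1 | ⟨h1, -⟩ | ⟨h1, -⟩
  · exact h1.trans H.ab
  · exact h1.subset.trans H.cb
  · exact h1.subset.trans H.db

private theorem pp_S (H : PPD φ x y Xa Xb Ic Id Ia Ib Ja Jb Jc) (s : Bool) :
    ppS Xa Xb s ⊆ Jc := by
  cases s
  · exact H.ac
  · exact H.bc

private theorem pp_ac (H : PPD φ x y Xa Xb Ic Id Ia Ib Ja Jb Jc) (g : Q) : φ g • Ia ⊆ Jc := by
  rcases H.gen g with rfl | ⟨s, e, h⟩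
  · rw [map_one, one_smul]
    exact H.ia.trans H.ac
  · rcases pp_awa H h with h1 | h1
    · exact (pp_fa H h1).1.subset.trans (H.ia.trans H.ac)
    · exact h1.trans (pp_S H s)

private theorem pp_bc (H : PPD φ x y Xa Xb Ic Id Ia Ib Ja Jb Jc) (g : Q) : φ g • Ib ⊆ Jc := by
  rcases H.gen g with rfl | ⟨s, e, h⟩
  · rw [map_one, one_smul]
    exact H.ib.trans H.bc
  · rcases pp_awb H h with h1 | h1
    · exact (pp_fb H h1).1.subset.trans (H.ib.trans H.bc)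
    · exact h1.trans (pp_S H s)

private theorem pp_cc (H : PPD φ x y Xa Xb Ic Id Ia Ib Ja Jb Jc) (g : Q)
    (hg : g ∉ Subgroup.zpowers (x * y)) : φ g • Ic ⊆ Jc := by
  rcases H.gen g with rfl | ⟨s, e, h⟩
  · exact absurd (one_mem _) hg
  · rcases pp_awc H h with h1 | ⟨-, h1⟩ | ⟨h1, -⟩
    · exact h1.trans (pp_S H s)
    · exact absurd h1 hg
    · exact h1.subset.trans H.dc

private theorem pp_no {A B : Set X} (hA : A.Nonempty) (h : A ⊆ B) (hd : Disjoint A B) :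
    False := by
  obtain ⟨u, hu⟩ := hA
  exact Set.disjoint_left.mp hd hu (h hu)

private theorem pp_inj (H : PPD φ x y Xa Xb Ic Id Ia Ib Ja Jb Jc) (g : Q)
    (hg : ∀ u : X, φ g • u = u) : g = 1 := by
  have hS : ∀ S : Set X, φ g • S = S := by
    intro S
    ext u
    rw [Set.mem_smul_set]
    constructor
    · rintro ⟨v, hv, rfl⟩
      rw [hg]
      exact hv
    · intro hu
      exact ⟨u, hu, hg u⟩
  by_cases h : g ∈ Subgroup.zpowers x
  · obtain ⟨n, rfl⟩ := Subgroup.mem_zpowers_iff.mp h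
    by_cases hn : n = 0
    · rw [hn, zpow_zero]
    · exfalso
      rcases H.xc n hn with h1 | ⟨-, h1⟩
      · rw [hS] at h1
        exact pp_no H.nc h1 H.dac.symm
      · rw [hS] at h1
        exact pp_no H.nc h1.subset H.dcd
  · exfalso
    have h1 := pp_aa H g h
    rw [hS] at h1
    exact pp_no H.na h1 H.dia

private theorem pp_cos (H : PPD φ x y Xa Xb Ic Id Ia Ib Ja Jb Jc) (k : ℤ)
    (hk : 1 ≤ k) : y ^ k ∉ Subgroup.zpowers x ∧ x ^ k ∉ Subgroup.zpowers y ∧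
      x ^ k ∉ Subgroup.zpowers (x * y) := by
  have hk0 : k ≠ 0 := by omega
  refine ⟨fun h => ?_, fun h => ?_, fun h => ?_⟩
  · have h1 : φ (y ^ k) • Ia ⊆ Xb := (Set.smul_set_mono H.ia).trans (H.ya k hk0)
    rw [(pp_fa H h).1] at h1
    obtain ⟨u, hu⟩ := H.na
    exact Set.disjoint_left.mp H.dab (H.ia hu) (h1 hu)
  · have h1 : φ (x ^ k) • Ib ⊆ Xa := (Set.smul_set_mono H.ib).trans (H.xb k hk0)
    rw [(pp_fb H h).1] at h1
    obtain ⟨u, hu⟩ := H.nb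
    exact Set.disjoint_left.mp H.dab (h1 hu) (H.ib hu)
  · obtain ⟨n, hn⟩ := Subgroup.mem_zpowers_iff.mp h
    rcases H.xc k hk0 with h1 | ⟨h1, -⟩
    · rw [← hn, H.fc] at h1
      exact pp_no H.nc h1 H.dac.symm
    · omega

private theorem pp_pow (g : Γ) (S : Set X) (h : g • S = S) (n : ℤ) : g ^ n • S = S :=
  MulAction.mem_stabilizer_iff.mp
    ((MulAction.stabilizer Γ S).zpow_mem (MulAction.mem_stabilizer_iff.mpr h) n)

end

/-! ### 2. The theorem -/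

theorem tPants (hDm : S_Dm) (hOct : S_Oct) (hPP : S_PP) : S_Pants := by
  intro Γ X _ _ T hT e A B z hP
  obtain ⟨d1, d2, d3, d4, d5, d6, d7, -, -, -⟩ := hDm Γ X T hT
  obtain ⟨o1, o2, o3⟩ := hOct Γ X T hT e A B z hP
  obtain ⟨hlift, hrel, hgen, -⟩ := tsf 0 3
  obtain ⟨ρ, -, hρ⟩ := hlift Γ (fun i => i.1.elim0)
    ![e 0 * (e 1)⁻¹, e 1 * (e 2)⁻¹, e 2 * (e 0)⁻¹] (by
      unfold sfVal
      simp [List.ofFn_succ, mul_assoc])
  have hρ0 : ρ (sfS 0) = e 0 * (e 1)⁻¹ := hρ 0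
  have hρ1 : ρ (sfS 1) = e 1 * (e 2)⁻¹ := hρ 1
  have hρ2 : ρ (sfS 2) = e 2 * (e 0)⁻¹ := hρ 2
  have hs2 : (sfS 2 : SF 0 3) = (sfS 0 * sfS 1)⁻¹ := by
    unfold sfVal at hrel
    simp [List.ofFn_succ] at hrel
    rw [← mul_assoc] at hrel
    exact eq_inv_of_mul_eq_one_right hrel
  have htop : Subgroup.zpowers (sfS 0 : SF 0 3) ⊔ Subgroup.zpowers (sfS 1 : SF 0 3) = ⊤ := by
    rw [eq_top_iff, ← hgen, Subgroup.closure_le]
    rintro z (⟨i, rfl⟩ | ⟨j, rfl⟩)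
    · exact i.1.elim0
    · have h0 : (sfS 0 : SF 0 3) ∈ Subgroup.zpowers (sfS 0 : SF 0 3) ⊔
          Subgroup.zpowers (sfS 1 : SF 0 3) := Subgroup.mem_sup_left (Subgroup.mem_zpowers _)
      have h1 : (sfS 1 : SF 0 3) ∈ Subgroup.zpowers (sfS 0 : SF 0 3) ⊔
          Subgroup.zpowers (sfS 1 : SF 0 3) := Subgroup.mem_sup_right (Subgroup.mem_zpowers _)
      fin_cases j
      · exact h0
      · exact h1
      · show (sfS 2 : SF 0 3) ∈ _
        rw [hs2]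
        exact inv_mem (mul_mem h0 h1)
  set a : Γ := e 0 * (e 1)⁻¹ with ha
  set b : Γ := e 1 * (e 2)⁻¹ with hb
  obtain ⟨w, hw⟩ : ∃ w : Fin 8 → X, w = ![z 2 0, z 0 2, z 0 1, z 1 0, b • z 2 0, b • z 0 2,
    z 1 2, z 2 1] := ⟨_, rfl⟩
  have w0 : w 0 = z 2 0 := by rw [hw]; rfl
  have w1 : w 1 = z 0 2 := by rw [hw]; rfl
  have w2 : w 2 = z 0 1 := by rw [hw]; rfl
  have w3 : w 3 = z 1 0 := by rw [hw]; rfl
  have w4 : w 4 = b • z 2 0 := by rw [hw]; rfl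
  have w5 : w 5 = b • z 0 2 := by rw [hw]; rfl
  have w6 : w 6 = z 1 2 := by rw [hw]; rfl
  have w7 : w 7 = z 2 1 := by rw [hw]; rfl
  have pos : ∀ i j k : Fin 8, (i < j ∧ j < k) ∨ (j < k ∧ k < i) ∨ (k < i ∧ i < j) →
      T (w i) (w j) (w k) := by
    rw [hw]
    rintro i j k (⟨h1, h2⟩ | ⟨h1, h2⟩ | ⟨h1, h2⟩)
    · exact o1 i j k h1 h2
    · exact hT.cyc _ _ _ (hT.cyc _ _ _ (o1 j k i h1 h2))
    · exact hT.cyc _ _ _ (o1 k i j h1 h2)
  clear_value a b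
  clear o1
  have esymm : ∀ x y, Eqv T x y → Eqv T y x := fun x y h u v => (h u v).symm
  have einv : ∀ (g : Γ) x, Eqv T (g • x) x → Eqv T (g⁻¹ • x) x := by
    intro g x h
    have h1 := d7 g⁻¹ _ _ h
    rw [inv_smul_smul] at h1
    exact esymm _ _ h1
  have fixD : ∀ (g : Γ) x y, Eqv T (g • x) x → Eqv T (g • y) y → g • Dm T x y = Dm T x y := by
    intro g x y h1 h2
    rw [d1]
    exact d6 _ _ _ _ h1 h2
  have fa2 : Eqv T (a • w 2) (w 2) := by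
    rw [w2, ha]
    exact hP.zfix 0 1 (by decide)
  have fa3 : Eqv T (a • w 3) (w 3) := by
    rw [w3]
    have h1 := einv _ _ (hP.zfix 1 0 (by decide))
    rwa [mul_inv_rev, inv_inv, ← ha] at h1
  have fb6 : Eqv T (b • w 6) (w 6) := by
    rw [w6, hb]
    exact hP.zfix 1 2 (by decide)
  have fb7 : Eqv T (b • w 7) (w 7) := by
    rw [w7]
    have h1 := einv _ _ (hP.zfix 2 1 (by decide))
    rwa [mul_inv_rev, inv_inv, ← hb] at h1
  have fc0 : Eqv T ((e 2 * (e 0)⁻¹) • w 0) (w 0) := by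
    rw [w0]
    exact hP.zfix 2 0 (by decide)
  have fc1 : Eqv T ((e 2 * (e 0)⁻¹) • w 1) (w 1) := by
    rw [w1]
    have h1 := einv _ _ (hP.zfix 0 2 (by decide))
    rwa [mul_inv_rev, inv_inv] at h1
  have pp := hPP Γ X T hT a (fun i => w (![0, 1, 2, 3, 4, 5] i))
    (fun i j k h1 h2 => pos _ _ _ (by revert i j k; decide)) fa2 fa3
    (by show Eqv T (a • w 4) (w 0); rw [w4, w0]; exact o2)
    (by show Eqv T (a • w 5) (w 1); rw [w5, w1]; exact o3)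
  have qq := hPP Γ X T hT b (fun i => w (![4, 5, 6, 7, 0, 1] i))
    (fun i j k h1 h2 => pos _ _ _ (by revert i j k; decide)) fb6 fb7
    (by show Eqv T (b • w 0) (w 4); rw [w4, w0]; exact fun u v => Iff.rfl)
    (by show Eqv T (b • w 1) (w 5); rw [w5, w1]; exact fun u v => Iff.rfl)
  have p0 : a • Dm T (w 4) (w 5) = Dm T (w 0) (w 1) := pp.1
  have p1 : ∀ n : ℤ, 1 ≤ n → a ^ n • Dm T (w 5) (w 0) ⊆ Dm T (w 1) (w 2) ∧
      a ^ n • Dm T (w 0) (w 1) ⊆ Dm T (w 1) (w 2) ∧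
      (2 ≤ n → a ^ n • Dm T (w 4) (w 5) ⊆ Dm T (w 1) (w 2)) := pp.2.1
  have p2 : ∀ n : ℤ, n ≤ -1 → a ^ n • Dm T (w 5) (w 0) ⊆ Dm T (w 3) (w 4) ∧
      a ^ n • Dm T (w 4) (w 5) ⊆ Dm T (w 3) (w 4) ∧
      (n ≤ -2 → a ^ n • Dm T (w 0) (w 1) ⊆ Dm T (w 3) (w 4)) := pp.2.2
  have q0 : b • Dm T (w 0) (w 1) = Dm T (w 4) (w 5) := qq.1
  have q1 : ∀ n : ℤ, 1 ≤ n → b ^ n • Dm T (w 1) (w 4) ⊆ Dm T (w 5) (w 6) ∧
      b ^ n • Dm T (w 4) (w 5) ⊆ Dm T (w 5) (w 6) ∧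
      (2 ≤ n → b ^ n • Dm T (w 0) (w 1) ⊆ Dm T (w 5) (w 6)) := qq.2.1
  have q2 : ∀ n : ℤ, n ≤ -1 → b ^ n • Dm T (w 1) (w 4) ⊆ Dm T (w 7) (w 0) ∧
      b ^ n • Dm T (w 0) (w 1) ⊆ Dm T (w 7) (w 0) ∧
      (n ≤ -2 → b ^ n • Dm T (w 4) (w 5) ⊆ Dm T (w 7) (w 0)) := qq.2.2
  clear pp qq
  have s12 : Dm T (w 1) (w 2) ⊆ Dm T (w 1) (w 4) := d3 _ _ _ (pos 1 2 4 (by decide))
  have s34 : Dm T (w 3) (w 4) ⊆ Dm T (w 1) (w 4) := d4 _ _ _ (pos 1 3 4 (by decide))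
  have s56 : Dm T (w 5) (w 6) ⊆ Dm T (w 5) (w 0) := d3 _ _ _ (pos 5 6 0 (by decide))
  have s70 : Dm T (w 7) (w 0) ⊆ Dm T (w 5) (w 0) := d4 _ _ _ (pos 5 7 0 (by decide))
  have sub : ∀ i j k l : Fin 8, ((l < i ∧ i < j) ∨ (i < j ∧ j < l) ∨ (j < l ∧ l < i)) →
      ((l < j ∧ j < k) ∨ (j < k ∧ k < l) ∨ (k < l ∧ l < j)) →
      Dm T (w i) (w j) ⊆ Dm T (w l) (w k) := fun i j k l h1 h2 =>
    d2 (w l) (w i) (w j) (w k) (pos l i j h1) (pos l j k h2)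
  have ne0 : (Dm T (w 0) (w 1)).Nonempty := hT.dense _ _ _ (pos 0 1 2 (by decide))
  have ne2 : (Dm T (w 2) (w 3)).Nonempty := hT.dense _ _ _ (pos 2 3 4 (by decide))
  have ne6 : (Dm T (w 6) (w 7)).Nonempty := hT.dense _ _ _ (pos 6 7 0 (by decide))
  have ne0' : (Dm T (w 1) (w 0)).Nonempty := ⟨w 2, pos 1 2 0 (by decide)⟩
  have ne2' : (Dm T (w 3) (w 2)).Nonempty := ⟨w 4, pos 3 4 2 (by decide)⟩
  have ne6' : (Dm T (w 7) (w 6)).Nonempty := ⟨w 0, pos 7 0 6 (by decide)⟩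
  have H : PPD ρ (sfS 0 : SF 0 3) (sfS 1) (Dm T (w 1) (w 4)) (Dm T (w 5) (w 0))
      (Dm T (w 0) (w 1)) (Dm T (w 4) (w 5)) (Dm T (w 2) (w 3)) (Dm T (w 6) (w 7))
      (Dm T (w 3) (w 2)) (Dm T (w 7) (w 6)) (Dm T (w 1) (w 0)) := by
    constructor
    case gen =>
      intro g
      rcases tAW (SF 0 3) (Subgroup.zpowers (sfS 0 : SF 0 3)) (Subgroup.zpowers (sfS 1)) ⊥ htop
        bot_le bot_le g with h | h
      · exact Or.inl (Subgroup.mem_bot.mp h)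
      · exact Or.inr h
    case xb =>
      intro n hn
      rw [map_zpow, hρ0]
      rcases lt_or_gt_of_ne hn with h | h
      · exact (p2 n (by omega)).1.trans s34
      · exact (p1 n (by omega)).1.trans s12
    case xc =>
      intro n hn
      rw [map_zpow, hρ0]
      rcases lt_or_gt_of_ne hn with h | h
      · by_cases h1 : n = -1
        · refine Or.inr ⟨h1, ?_⟩
          rw [h1, zpow_neg_one, ← p0, inv_smul_smul]
        · exact Or.inl (((p2 n (by omega)).2.2 (by omega)).trans s34)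
      · exact Or.inl ((p1 n (by omega)).2.1.trans s12)
    case xd =>
      intro n hn
      rw [map_zpow, hρ0]
      rcases lt_or_gt_of_ne hn with h | h
      · exact Or.inl ((p2 n (by omega)).2.1.trans s34)
      · by_cases h1 : n = 1
        · refine Or.inr ⟨h1, ?_⟩
          rw [h1, zpow_one, p0]
        · exact Or.inl (((p1 n (by omega)).2.2 (by omega)).trans s12)
    case ya =>
      intro n hn
      rw [map_zpow, hρ1]
      rcases lt_or_gt_of_ne hn with h | h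
      · exact (q2 n (by omega)).1.trans s70
      · exact (q1 n (by omega)).1.trans s56
    case yc =>
      intro n hn
      rw [map_zpow, hρ1]
      rcases lt_or_gt_of_ne hn with h | h
      · exact Or.inl ((q2 n (by omega)).2.1.trans s70)
      · by_cases h1 : n = 1
        · refine Or.inr ⟨h1, ?_⟩
          rw [h1, zpow_one, q0]
        · exact Or.inl (((q1 n (by omega)).2.2 (by omega)).trans s56)
    case yd =>
      intro n hn
      rw [map_zpow, hρ1]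
      rcases lt_or_gt_of_ne hn with h | h
      · by_cases h1 : n = -1
        · refine Or.inr ⟨h1, ?_⟩
          rw [h1, zpow_neg_one, ← q0, inv_smul_smul]
        · exact Or.inl (((q2 n (by omega)).2.2 (by omega)).trans s70)
      · exact Or.inl ((q1 n (by omega)).2.1.trans s56)
    case fa =>
      intro n
      rw [map_zpow, hρ0]
      exact pp_pow _ _ (fixD _ _ _ fa2 fa3) n
    case fja =>
      intro n
      rw [map_zpow, hρ0]
      exact pp_pow _ _ (fixD _ _ _ fa3 fa2) n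
    case fb =>
      intro n
      rw [map_zpow, hρ1]
      exact pp_pow _ _ (fixD _ _ _ fb6 fb7) n
    case fjb =>
      intro n
      rw [map_zpow, hρ1]
      exact pp_pow _ _ (fixD _ _ _ fb7 fb6) n
    case fc =>
      intro n
      rw [map_zpow, map_mul, hρ0, hρ1]
      refine pp_pow _ _ ?_ n
      rw [mul_smul, q0, p0]
    case ia => exact sub 2 3 4 1 (by decide) (by decide)
    case ib => exact sub 6 7 0 5 (by decide) (by decide)
    case ba => exact sub 5 0 2 3 (by decide) (by decide)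
    case ca => exact sub 0 1 2 3 (by decide) (by decide)
    case da => exact sub 4 5 2 3 (by decide) (by decide)
    case ab => exact sub 1 4 6 7 (by decide) (by decide)
    case cb => exact sub 0 1 6 7 (by decide) (by decide)
    case db => exact sub 4 5 6 7 (by decide) (by decide)
    case ac => exact d3 _ _ _ (pos 1 4 0 (by decide))
    case bc => exact d4 _ _ _ (pos 1 5 0 (by decide))
    case dc => exact sub 4 5 0 1 (by decide) (by decide)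
    case dab => exact (d5 _ _).mono_right (sub 5 0 1 4 (by decide) (by decide))
    case dac => exact (d5 (w 1) (w 0)).mono_left (d3 _ _ _ (pos 1 4 0 (by decide)))
    case dcd => exact (d5 (w 0) (w 1)).mono_right (sub 4 5 0 1 (by decide) (by decide))
    case dia => exact d5 _ _
    case na => exact ne2
    case nb => exact ne6
    case nc => exact ne0
  have hzp : Subgroup.zpowers (sfS 2 : SF 0 3) = Subgroup.zpowers (sfS 0 * sfS 1) := by
    rw [hs2, Subgroup.zpowers_inv]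
  rw [← w2, ← w3, ← w6, ← w7, ← w0, ← w1]
  refine ⟨ρ, ![fl T a (w 2) (w 3), fl T b (w 6) (w 7), fl T (e 2 * (e 0)⁻¹) (w 0) (w 1)],
    ⟨fun i => ?_, fun i => ?_, fun g hg => pp_inj H g hg, fun g i j hij => ?_, fun i => ?_⟩,
    fun j => ⟨1, (one_smul _ _).symm⟩⟩
  · fin_cases i
    · exact hρ0.symm
    · exact hρ1.symm
    · exact hρ2.symm
  · fin_cases i
    · exact ⟨ne2, ne2', d5 _ _, fixD _ _ _ fa2 fa3, fixD _ _ _ fa3 fa2⟩
    · exact ⟨ne6, ne6', d5 _ _, fixD _ _ _ fb6 fb7, fixD _ _ _ fb7 fb6⟩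
    · exact ⟨ne0, ne0', d5 _ _, fixD _ _ _ fc0 fc1, fixD _ _ _ fc1 fc0⟩
  · fin_cases i <;> fin_cases j
    · exact pp_aa H g (hij rfl)
    · exact pp_ab H g
    · exact pp_ac H g
    · exact pp_ba H g
    · exact pp_bb H g (hij rfl)
    · exact pp_bc H g
    · exact pp_ca H g
    · exact pp_cb H g
    · refine pp_cc H g ?_
      rw [← hzp]
      exact hij rfl
  · have h1 := pp_cos H 1 le_rfl
    have h2 := pp_cos H 2 one_le_two
    rw [zpow_one, zpow_one] at h1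
    have hsub : ∀ u : SF 0 3, u⁻¹ * u ^ (2 : ℤ) = u := by
      intro u
      group
    fin_cases i
    · refine ⟨sfS 1, sfS 1 ^ (2 : ℤ), h1.1, h2.1, ?_⟩
      rw [hsub]
      exact h1.1
    · refine ⟨sfS 0, sfS 0 ^ (2 : ℤ), h1.2.1, h2.2.1, ?_⟩
      rw [hsub]
      exact h1.2.1
    · show ∃ x y, x ∉ Subgroup.zpowers (sfS 2 : SF 0 3) ∧ y ∉ Subgroup.zpowers (sfS 2 : SF 0 3) ∧
        x⁻¹ * y ∉ Subgroup.zpowers (sfS 2 : SF 0 3)
      rw [hzp]
      refine ⟨sfS 0, sfS 0 ^ (2 : ℤ), h1.2.2, h2.2.2, ?_⟩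
      rw [hsub]
      exact h1.2.2

end Pool.Agent.MPEF.U
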