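import Pool.Agent.Lib.MP_ef3f0f_gt.U.G.Spec
import Pool.Agent.Lib.MP_ef3f0f_gt.G.sf

set_option autoImplicit false

namespace Pool.Agent.MPEF.U

open Pool.Agent.MPEF
open scoped Pointwise commutatorElement

private theorem UStHNN_val1 {h k : ℕ} {G : Type} [Group G] (x : Fin (h + 1) × Bool → G)
    (s : Fin k → G) : sfVal x s =
      (List.ofFn fun i : Fin h => ⁅x (i.castSucc, false), x (i.castSucc, true)⁆).prod *
        ⁅x (Fin.last h, false), x (Fin.last h, true)⁆ * (List.ofFn s).prod := by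
  unfold sfVal
  rw [List.ofFn_succ', List.concat_eq_append, List.prod_append, List.prod_singleton]

private theorem UStHNN_val2 {h k : ℕ} {G : Type} [Group G] (x : Fin h × Bool → G)
    (s : Fin (k + 2) → G) : sfVal x s =
      (List.ofFn fun i : Fin h => ⁅x (i, false), x (i, true)⁆).prod *
        (s 0 * s 1) * (List.ofFn fun j : Fin k => s j.succ.succ).prod := by
  unfold sfVal
  rw [List.ofFn_succ (f := s), List.ofFn_succ (f := fun i : Fin (k + 1) => s i.succ),
    List.prod_cons, List.prod_cons, Fin.succ_zero_eq_one, mul_assoc, mul_assoc]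

private def UStHNN_f {k : ℕ} : Option (Option (Fin k)) → Fin (k + 2)
  | none => 0
  | some none => 1
  | some (some i) => i.succ.succ

private theorem UStHNN_f_inj {k : ℕ} : Function.Injective (UStHNN_f (k := k)) := by
  have h1 : ∀ i : Fin k, i.succ.succ ≠ (1 : Fin (k + 2)) := by
    intro i h
    rw [← Fin.succ_zero_eq_one] at h
    exact Fin.succ_ne_zero _ (Fin.succ_injective _ h)
  have h0 : ∀ i : Fin k, i.succ.succ ≠ (0 : Fin (k + 2)) := fun i => Fin.succ_ne_zero _
  have h01 : (0 : Fin (k + 2)) ≠ 1 := by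
    rw [← Fin.succ_zero_eq_one]
    exact (Fin.succ_ne_zero _).symm
  rintro (_ | _ | i) (_ | _ | j) h
  · rfl
  · exact absurd h h01
  · exact absurd h.symm (h0 j)
  · exact absurd h.symm h01
  · rfl
  · exact absurd h.symm (h1 j)
  · exact absurd h (h0 i)
  · exact absurd h (h1 i)
  · have h2 : i = j := Fin.succ_injective _ (Fin.succ_injective _ h)
    rw [h2]

theorem tStHNN (hMap : S_SysMap) (hHNN : S_HNN) : S_StHNN := by
  intro Γ X _ _ h k c hst hc01
  obtain ⟨ρ₀, β, hS, hconj⟩ := hst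
  obtain ⟨huniv0, hrel0, hgen0, huniq0⟩ := tsf h (k + 2)
  obtain ⟨huniv1, hrel1, hgen1, huniq1⟩ := tsf (h + 1) k
  -- the conjugating element
  have hex : ∃ t₀ : Γ, t₀ • β 0 = (β 1).inv := by
    obtain ⟨a, ha⟩ := hconj 0
    obtain ⟨b, hb⟩ := hconj 1
    obtain ⟨t, ht⟩ := hc01
    refine ⟨b * t * a⁻¹, ?_⟩
    rw [ha, hb, mul_smul, inv_smul_smul, mul_smul, ht, FL.smul_inv]
  obtain ⟨t₀, htβ⟩ := hex
  have ht₀ : t₀ * ρ₀ (sfS 0) * t₀⁻¹ = (ρ₀ (sfS 1))⁻¹ := by
    have h2 := congrArg FL.el htβ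
    rw [FL.smul_el, FL.inv_el, hS.el 0, hS.el 1] at h2
    exact h2
  -- the new representation
  let x : Fin (h + 1) × Bool → Γ := fun i =>
    Fin.snoc (α := fun _ => Γ) (fun j : Fin h => ρ₀ (sfX (j, i.2)))
      (if i.2 then t₀ else ρ₀ (sfS 0)) i.1
  have hxc : ∀ (i : Fin h) (β : Bool), x (i.castSucc, β) = ρ₀ (sfX (i, β)) := by
    intro i β
    simp only [x, Fin.snoc_castSucc]
  have hxf : x (Fin.last h, false) = ρ₀ (sfS 0) := by
    simp only [x, Fin.snoc_last, Bool.false_eq_true, if_false]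
  have hxt : x (Fin.last h, true) = t₀ := by
    simp only [x, Fin.snoc_last, if_true]
  have hcomm : ⁅ρ₀ (sfS 0), t₀⁆ = ρ₀ (sfS 0) * ρ₀ (sfS 1) := by
    have h2 : ρ₀ (sfS 1) = (t₀ * ρ₀ (sfS 0) * t₀⁻¹)⁻¹ := by rw [ht₀, inv_inv]
    rw [h2, commutatorElement_def]
    group
  have hrelρ : sfVal x (fun j : Fin k => ρ₀ (sfS j.succ.succ)) = 1 := by
    rw [UStHNN_val1, hxf, hxt, hcomm]
    simp only [hxc]
    have h3 := congrArg ρ₀ hrel0
    rw [UStHNN_val2, map_one, map_mul, map_mul, map_mul, map_list_prod, map_list_prod,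
      List.map_ofFn, List.map_ofFn] at h3
    rw [← h3]
    congr 3
    refine congrArg List.ofFn (funext fun i => ?_)
    simp only [Function.comp_apply]
    rw [map_commutatorElement]
  obtain ⟨ρ, hρX, hρS⟩ := huniv1 Γ x _ hrelρ
  -- the embedding
  let Xh : SF (h + 1) k := sfX (Fin.last h, false)
  let T : SF (h + 1) k := sfX (Fin.last h, true)
  let s : Fin (k + 2) → SF (h + 1) k := Fin.cons Xh (Fin.cons (T * Xh⁻¹ * T⁻¹) fun j : Fin k => sfS j)
  have hs0 : s 0 = Xh := rfl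
  have hs1 : s 1 = T * Xh⁻¹ * T⁻¹ := rfl
  have hsj : ∀ j : Fin k, s j.succ.succ = sfS j := fun j => rfl
  have hrelj : sfVal (fun i : Fin h × Bool => (sfX (i.1.castSucc, i.2) : SF (h + 1) k)) s = 1 := by
    rw [← hrel1, UStHNN_val2, UStHNN_val1, hs0, hs1]
    simp only [hsj]
    congr 2
  obtain ⟨j, hjX, hjS⟩ := huniv0 (SF (h + 1) k) _ s hrelj
  have hρj : ρ.comp j = ρ₀ := by
    apply huniq0
    · rintro ⟨i, β⟩
      rw [MonoidHom.comp_apply, hjX, hρX, hxc]
    · intro i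
      rw [MonoidHom.comp_apply, hjS]
      refine Fin.cases ?_ (fun i => Fin.cases ?_ (fun i => ?_) i) i
      · rw [hs0]
        simp only [Xh]
        rw [hρX, hxf]
      · rw [Fin.succ_zero_eq_one, hs1]
        simp only [Xh, T]
        rw [map_mul, map_mul, map_inv, map_inv, hρX, hρX, hxf, hxt]
        have h2 : ρ₀ (sfS 1) = (t₀ * ρ₀ (sfS 0) * t₀⁻¹)⁻¹ := by rw [ht₀, inv_inv]
        rw [h2]
        group
      · rw [hsj, hρS]
  have hSb : Sys ρ₀ (fun o => (sfS (UStHNN_f o) : SF h (k + 2))) (fun o => β (UStHNN_f o)) := by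
    have h2 := hMap Γ X (SF h (k + 2)) (SF h (k + 2)) (Fin (k + 2)) (Option (Option (Fin k)))
      ρ₀ (fun j : Fin (k + 2) => (sfS j : SF h (k + 2))) β hS (MulEquiv.refl _) UStHNN_f
      UStHNN_f_inj (fun o => sfS (UStHNN_f o)) (fun _ => 1) (fun o => by simp)
    have h3 : (fun o : Option (Option (Fin k)) => ρ₀ (1 : SF h (k + 2)) • β (UStHNN_f o)) =
        fun o => β (UStHNN_f o) := by
      funext o
      rw [map_one, one_smul]
    rw [h3] at h2
    exact h2
  have hfin := hHNN Γ X (SF h (k + 2)) (SF (h + 1) k) (Fin k) ρ₀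
    (fun o => (sfS (UStHNN_f o) : SF h (k + 2))) (fun o => β (UStHNN_f o)) ρ j T hSb
    (fun y => by rw [← hρj]; rfl)
    (by
      change T * j (sfS 0) * T⁻¹ = (j (sfS 1))⁻¹
      rw [hjS, hjS, hs0, hs1]
      group)
    (by
      change ρ (sfX (Fin.last h, true)) • β 0 = (β 1).inv
      rw [hρX, hxt, htβ])
    (by
      rw [eq_top_iff, ← hgen1, Subgroup.closure_le]
      rintro y (⟨⟨i, β⟩, rfl⟩ | ⟨i, rfl⟩)
      · refine Fin.lastCases ?_ (fun i => ?_) i
        · cases β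
          · refine Subgroup.mem_sup_left ⟨sfS 0, ?_⟩
            rw [hjS, hs0]
          · exact Subgroup.mem_sup_right (Subgroup.mem_zpowers T)
        · refine Subgroup.mem_sup_left ⟨sfX (i, β), ?_⟩
          rw [hjX]
      · refine Subgroup.mem_sup_left ⟨sfS i.succ.succ, ?_⟩
        rw [hjS, hsj])
  refine ⟨ρ, fun i => β i.succ.succ, ?_, ?_⟩
  · have h2 : (fun i : Fin k => j (sfS (UStHNN_f (some (some i))))) = fun i : Fin k => sfS i := by
      funext i
      change j (sfS i.succ.succ) = sfS i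
      rw [hjS, hsj]
    rw [h2] at hfin
    exact hfin
  · intro i
    exact hconj _

end Pool.Agent.MPEF.U
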