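import Pool.Agent.Lib.MP_ef3f0f_gt.U.G.Spec
import Pool.Agent.Lib.MP_ef3f0f_gt.G.sf

set_option autoImplicit false

/-! # MP_ef3f0f_gt, Theorem U, part K: permutation of the boundaries -/

namespace Pool.Agent.MPEF.U

open Pool.Agent.MPEF
open scoped Pointwise commutatorElement

private theorem StPerm_prod {G : Type} [Group G] : ∀ (n : ℕ) (i : Fin n) (s s' : Fin (n + 1) → G),
    (∀ j, j ≠ i.castSucc → j ≠ i.succ → s' j = s j) →
    s' i.castSucc * s' i.succ = s i.castSucc * s i.succ →
    (List.ofFn s').prod = (List.ofFn s).prod := by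
  intro n
  induction n with
  | zero => intro i; exact i.elim0
  | succ n ih =>
    intro i s s' h1 h2
    refine Fin.cases ?_ ?_ i (motive := fun i =>
      (∀ j, j ≠ i.castSucc → j ≠ i.succ → s' j = s j) →
      s' i.castSucc * s' i.succ = s i.castSucc * s i.succ →
      (List.ofFn s').prod = (List.ofFn s).prod) h1 h2
    · intro h1 h2
      rw [List.ofFn_succ, List.ofFn_succ (f := s), List.prod_cons, List.prod_cons, List.ofFn_succ,
        List.ofFn_succ (f := fun i : Fin (n + 1) => s i.succ), List.prod_cons, List.prod_cons,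
        ← mul_assoc, ← mul_assoc]
      have h3 : s' 0 * s' (Fin.succ 0) = s 0 * s (Fin.succ 0) := h2
      rw [h3]
      congr 2
      refine congrArg List.ofFn (funext fun j => ?_)
      apply h1
      · intro h
        exact absurd h (Fin.succ_ne_zero _)
      · intro h
        exact absurd (Fin.succ_injective _ h) (Fin.succ_ne_zero _)
    · intro i h1 h2
      rw [List.ofFn_succ, List.ofFn_succ (f := s), List.prod_cons, List.prod_cons]
      have h0 : s' 0 = s 0 := by
        apply h1
        · intro h
          rw [← Fin.succ_castSucc] at h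
          exact absurd h.symm (Fin.succ_ne_zero _)
        · intro h
          exact absurd h.symm (Fin.succ_ne_zero _)
      rw [h0]
      congr 1
      apply ih i
      · intro j hj1 hj2
        apply h1
        · intro h
          rw [← Fin.succ_castSucc] at h
          exact hj1 (Fin.succ_injective _ h)
        · intro h
          exact hj2 (Fin.succ_injective _ h)
      · rw [← Fin.succ_castSucc] at h2
        exact h2

private theorem StPerm_adj (hSM : S_SysMap) {Γ X : Type} [Group Γ] [MulAction Γ X]
    (h n : ℕ) (i : Fin n) (c : Fin (n + 1) → FL Γ X) (hst : St h (n + 1) c) :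
    St h (n + 1) (c ∘ Equiv.swap i.castSucc i.succ) := by
  obtain ⟨huniv, hrel, hgen, huniq⟩ := tsf h (n + 1)
  obtain ⟨ρ, β, hS, hconj⟩ := hst
  have hab : i.castSucc ≠ i.succ := (Fin.castSucc_lt_succ (i := i)).ne
  set a := i.castSucc with ha
  set b := i.succ with hb
  let s' : Fin (n + 1) → SF h (n + 1) :=
    Function.update (Function.update sfS a (sfS a * sfS b * (sfS a)⁻¹)) b (sfS a)
  let s'' : Fin (n + 1) → SF h (n + 1) :=
    Function.update (Function.update sfS a (sfS b)) b ((sfS b)⁻¹ * sfS a * sfS b)
  have hs'a : s' a = sfS a * sfS b * (sfS a)⁻¹ := by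
    simp only [s', Function.update_of_ne hab, Function.update_self]
  have hs'b : s' b = sfS a := by simp only [s', Function.update_self]
  have hs'j : ∀ j, j ≠ a → j ≠ b → s' j = sfS j := by
    intro j h1 h2
    simp only [s', Function.update_of_ne h2, Function.update_of_ne h1]
  have hs''a : s'' a = sfS b := by
    simp only [s'', Function.update_of_ne hab, Function.update_self]
  have hs''b : s'' b = (sfS b)⁻¹ * sfS a * sfS b := by simp only [s'', Function.update_self]
  have hs''j : ∀ j, j ≠ a → j ≠ b → s'' j = sfS j := by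
    intro j h1 h2
    simp only [s'', Function.update_of_ne h2, Function.update_of_ne h1]
  have hv' : sfVal (sfX : Fin h × Bool → SF h (n + 1)) s' = 1 := by
    rw [← hrel]
    unfold sfVal
    congr 1
    apply StPerm_prod n i _ _ hs'j
    rw [← ha, ← hb, hs'a, hs'b]
    group
  have hv'' : sfVal (sfX : Fin h × Bool → SF h (n + 1)) s'' = 1 := by
    rw [← hrel]
    unfold sfVal
    congr 1
    apply StPerm_prod n i _ _ hs''j
    rw [← ha, ← hb, hs''a, hs''b]
    group
  obtain ⟨θ, hθX, hθS⟩ := huniv _ _ _ hv'
  obtain ⟨θ', hθX', hθS'⟩ := huniv _ _ _ hv''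
  have h1 : θ'.comp θ = MonoidHom.id _ := by
    apply huniq
    · intro x
      simp only [MonoidHom.comp_apply, hθX, hθX', MonoidHom.id_apply]
    · intro j
      rw [MonoidHom.comp_apply, hθS, MonoidHom.id_apply]
      by_cases hja : j = a
      · rw [hja, hs'a, map_mul, map_mul, map_inv, hθS', hθS', hs''a, hs''b]
        group
      · by_cases hjb : j = b
        · rw [hjb, hs'b, hθS', hs''a]
        · rw [hs'j j hja hjb, hθS', hs''j j hja hjb]
  have h2 : θ.comp θ' = MonoidHom.id _ := by
    apply huniq
    · intro x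
      simp only [MonoidHom.comp_apply, hθX, hθX', MonoidHom.id_apply]
    · intro j
      rw [MonoidHom.comp_apply, hθS', MonoidHom.id_apply]
      by_cases hja : j = a
      · rw [hja, hs''a, hθS, hs'b]
      · by_cases hjb : j = b
        · rw [hjb, hs''b, map_mul, map_mul, map_inv, hθS, hθS, hs'a, hs'b]
          group
        · rw [hs''j j hja hjb, hθS, hs'j j hja hjb]
  let Θ : SF h (n + 1) ≃* SF h (n + 1) := MonoidHom.toMulEquiv θ θ' h1 h2
  have hΘ : ∀ g, Θ g = θ g := fun g => rfl
  have hy : ∀ j, ∃ y : SF h (n + 1), θ (sfS j) = y * sfS (Equiv.swap a b j) * y⁻¹ := by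
    intro j
    by_cases hja : j = a
    · exact ⟨sfS a, by rw [hja, hθS, hs'a, Equiv.swap_apply_left]⟩
    · by_cases hjb : j = b
      · exact ⟨1, by rw [hjb, hθS, hs'b, Equiv.swap_apply_right]; group⟩
      · exact ⟨1, by rw [hθS, hs'j j hja hjb, Equiv.swap_apply_of_ne_of_ne hja hjb]; group⟩
  choose y hy using hy
  refine ⟨ρ.comp θ, fun j => ρ (y j) • β (Equiv.swap a b j), ?_, ?_⟩
  · exact hSM Γ X (SF h (n + 1)) (SF h (n + 1)) (Fin (n + 1)) (Fin (n + 1)) ρ sfS β hS Θ
      (Equiv.swap a b) (Equiv.injective _) sfS y hy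
  · intro j
    obtain ⟨t, ht⟩ := hconj (Equiv.swap a b j)
    refine ⟨ρ (y j) * t, ?_⟩
    change ρ (y j) • β (Equiv.swap a b j) = (ρ (y j) * t) • c (Equiv.swap a b j)
    rw [ht, mul_smul]

theorem tStPerm (hMap : S_SysMap) : S_StPerm := by
  intro Γ X _ _ h k c hst π
  rcases k with _ | n
  · have h1 : c ∘ π = c := funext fun j => j.elim0
    rw [h1]
    exact hst
  · have key : ∀ π : Equiv.Perm (Fin (n + 1)), π ∈ Submonoid.closure
        (Set.range fun i : Fin n => Equiv.swap i.castSucc i.succ) →
        ∀ c : Fin (n + 1) → FL Γ X, St h (n + 1) c → St h (n + 1) (c ∘ π) := by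
      intro π hπ
      induction hπ using Submonoid.closure_induction with
      | mem x hx =>
        obtain ⟨i, rfl⟩ := hx
        intro c hc
        exact StPerm_adj hMap h n i c hc
      | one =>
        intro c hc
        exact hc
      | mul x y _ _ hx hy =>
        intro c hc
        exact hy _ (hx c hc)
    apply key π _ c hst
    rw [Equiv.Perm.mclosure_swap_castSucc_succ]
    exact Submonoid.mem_top π

end Pool.Agent.MPEF.U
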