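import Pool.Agent.Lib.MP_ef3f0f_gt.U.G.Spec

set_option autoImplicit false

namespace Pool.Agent.MPEF.U

open scoped Pointwise commutatorElement
open Pool.Agent.MPEF

private theorem uSurfEnd_rel {h : ℕ} {Γ : Type} [Group Γ]
    (φ : FreeGroup (SGen h 0) →* Γ) :
    φ (sfRel h 0) = (List.ofFn fun i : Fin h => ⁅φ (FreeGroup.of (Sum.inl (i, false))),
      φ (FreeGroup.of (Sum.inl (i, true)))⁆).prod := by
  unfold sfRel
  rw [map_mul, map_list_prod, map_list_prod, List.map_ofFn, List.map_ofFn, List.ofFn_zero,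
    List.prod_nil, mul_one]
  refine congrArg (fun l => (List.ofFn l).prod) (funext fun i => ?_)
  simp only [Function.comp_apply]
  rw [map_commutatorElement]

private theorem uSurfEnd_rel' {h : ℕ} {Γ : Type} [Group Γ]
    (φ : FreeGroup (Fin h × Bool) →* Γ) :
    φ (surfRel h) = (List.ofFn fun i : Fin h => ⁅φ (FreeGroup.of (i, false)),
      φ (FreeGroup.of (i, true))⁆).prod := by
  unfold surfRel
  rw [map_list_prod, List.map_ofFn]
  refine congrArg (fun l => (List.ofFn l).prod) (funext fun i => ?_)
  simp only [Function.comp_apply]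
  rw [map_commutatorElement]

theorem tSurfEnd : S_SurfEnd := by
  intro Γ X _ _ h c hst
  obtain ⟨ρ, β, hS, -⟩ := hst
  -- the homomorphism from the surface group
  have hr : ∀ r ∈ ({surfRel h} : Set (FreeGroup (Fin h × Bool))),
      FreeGroup.lift (fun i => (sfX i : SF h 0)) r = 1 := by
    intro r hr
    rw [Set.mem_singleton_iff] at hr
    rw [hr, uSurfEnd_rel']
    have h1 := uSurfEnd_rel (h := h) (PresentedGroup.mk {sfRel h 0})
    have h2 : PresentedGroup.mk {sfRel h 0} (sfRel h 0) = 1 :=
      PresentedGroup.one_of_mem (Set.mem_singleton _)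
    rw [h2] at h1
    rw [h1]
    refine congrArg (fun l => (List.ofFn l).prod) (funext fun i => ?_)
    rw [FreeGroup.lift_apply_of, FreeGroup.lift_apply_of]
    rfl
  have hr' : ∀ r ∈ ({sfRel h 0} : Set (FreeGroup (SGen h 0))),
      FreeGroup.lift (Sum.elim (fun i => (PresentedGroup.of i : SurfaceGroup h))
        (fun j : Fin 0 => j.elim0)) r = 1 := by
    intro r hr
    rw [Set.mem_singleton_iff] at hr
    rw [hr, uSurfEnd_rel]
    have h1 := uSurfEnd_rel' (h := h) (PresentedGroup.mk {surfRel h})
    have h2 : PresentedGroup.mk {surfRel h} (surfRel h) = 1 :=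
      PresentedGroup.one_of_mem (Set.mem_singleton _)
    rw [h2] at h1
    rw [h1]
    refine congrArg (fun l => (List.ofFn l).prod) (funext fun i => ?_)
    rw [FreeGroup.lift_apply_of, FreeGroup.lift_apply_of]
    rfl
  let φ : SurfaceGroup h →* SF h 0 := PresentedGroup.toGroup hr
  let ψ : SF h 0 →* SurfaceGroup h := PresentedGroup.toGroup hr'
  have hψφ : ψ.comp φ = MonoidHom.id _ := by
    apply PresentedGroup.ext
    intro i
    change ψ (φ (PresentedGroup.of i)) = PresentedGroup.of i
    have h1 : φ (PresentedGroup.of i) = sfX i := PresentedGroup.toGroup.of hr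
    rw [h1]
    exact PresentedGroup.toGroup.of hr'
  refine ⟨ρ.comp φ, ?_⟩
  intro g hg
  have h1 : φ g = 1 := hS.inj (φ g) hg
  have h2 : ψ (φ g) = g := DFunLike.congr_fun hψφ g
  rw [← h2, h1, map_one]

end Pool.Agent.MPEF.U
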