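import Pool.Agent.Lib.MP_ef3f0f_gt.U.G.Spec

set_option autoImplicit false

/-!
# MP_ef3f0f_gt, Theorem U, part K: conjugation of systems
(adapted from MP_ef3f0f_gt/G/SysConj.lean)
-/

namespace Pool.Agent.MPEF.U

open scoped Pointwise commutatorElement
open Pool.Agent.MPEF

theorem tSysConj : S_SysConj := by
  intro Γ X Q κ _ _ _ ρ b β hS t
  have hρ : ∀ g, ((MulAut.conj t).toMonoidHom.comp ρ) g = t * ρ g * t⁻¹ := fun g => rfl
  refine ⟨?_, ?_, ?_, ?_, hS.cos⟩
  · intro i
    rw [hρ, FL.smul_el, hS.el i]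
  · intro i
    exact (hS.ok i).smul t
  · intro g hg
    apply hS.inj
    intro x
    have h1 := hg (t • x)
    rw [hρ, smul_smul, inv_mul_cancel_right, mul_smul] at h1
    exact smul_left_cancel t h1
  · intro g i j hne
    have h1 := hS.dis g i j hne
    rw [hρ, FL.smul_I, FL.smul_J, smul_smul, inv_mul_cancel_right, mul_smul]
    exact Set.smul_set_mono h1

end Pool.Agent.MPEF.U
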