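import Pool.Agent.Lib.MP_ef3f0f_gt.III.Gordan
import Pool.Agent.Lib.MP_ef3f0f_gt.U.G.Dm
import Pool.Agent.Lib.MP_ef3f0f_gt.U.G.Oct
import Pool.Agent.Lib.MP_ef3f0f_gt.U.G.PP
import Pool.Agent.Lib.MP_ef3f0f_gt.U.G.Pants
import Pool.Agent.Lib.MP_ef3f0f_gt.U.G.SysMap
import Pool.Agent.Lib.MP_ef3f0f_gt.U.G.SysConj
import Pool.Agent.Lib.MP_ef3f0f_gt.U.G.StPerm
import Pool.Agent.Lib.MP_ef3f0f_gt.U.G.Amal
import Pool.Agent.Lib.MP_ef3f0f_gt.U.G.StAmal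
import Pool.Agent.Lib.MP_ef3f0f_gt.U.G.HNN
import Pool.Agent.Lib.MP_ef3f0f_gt.U.G.StHNN
import Pool.Agent.Lib.MP_ef3f0f_gt.U.G.Glue
import Pool.Agent.Lib.MP_ef3f0f_gt.U.G.SurfEnd
import Pool.Agent.Lib.MP_ef3f0f_gt.U.G.Match

set_option autoImplicit false

/-! # MP_ef3f0f_gt, Theorem U: the statements of `U/G/Spec.lean`, without hypotheses -/

namespace Pool.Agent.MPEF.U

theorem aDm : S_Dm := tDm

theorem aPants : S_Pants := tPants tDm (tOct tDm) (tPP tDm)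

theorem aGlue : S_Glue :=
  tGlue (tStPerm tSysMap) (tStAmal tSysMap tSysConj tAmal) (tStHNN tSysMap tHNN)

theorem aSurfEnd : S_SurfEnd := tSurfEnd

theorem aMatch : S_Match := tMatch Pool.Agent.MPEF.tGordan

end Pool.Agent.MPEF.U
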