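import Pool.Agent.Lib.MP_ef3f0f_gt.G.Spec

set_option autoImplicit false

/-!
# MP_ef3f0f_gt, Theorem U, part K (gluing with diamonds): definitions

`Γ` is a group acting on a set `X` (in the application `X = SL₃(ℝ)`, the set of frames, on which `Γ`
acts through its first component by left multiplication). A framed loop is an element of `Γ`
together with two disjoint sets, the diamonds from the attracting to the repelling flag and back.
No topology is used. `SF h k`, `sfX`, `sfS`, `sfVal`, `AW`, `HW`, `SurfaceGroup` are those of the old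
library (`Pool.Agent.MPEF`).
-/

namespace Pool.Agent.MPEF.U

open scoped Pointwise commutatorElement
open Pool.Agent.MPEF

/-- A framed loop: an element `el`, the diamond `I` from the attracting to the repelling flag, the
diamond `J` from the repelling to the attracting flag. -/
@[ext] structure FL (Γ X : Type) where
  el : Γ
  I : Set X
  J : Set X

section FLs

variable {Γ X : Type} [Group Γ] [MulAction Γ X]

/-- `Γ` acts on framed loops. -/
instance : SMul Γ (FL Γ X) := ⟨fun t l => ⟨t * l.el * t⁻¹, t • l.I, t • l.J⟩⟩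

@[simp] lemma FL.smul_el (t : Γ) (l : FL Γ X) : (t • l).el = t * l.el * t⁻¹ := rfl
@[simp] lemma FL.smul_I (t : Γ) (l : FL Γ X) : (t • l).I = t • l.I := rfl
@[simp] lemma FL.smul_J (t : Γ) (l : FL Γ X) : (t • l).J = t • l.J := rfl

instance : MulAction Γ (FL Γ X) where
  one_smul l := by
    ext1
    · simp
    · rw [FL.smul_I, one_smul]
    · rw [FL.smul_J, one_smul]
  mul_smul s t l := by
    ext1
    · simp [mul_assoc]
    · rw [FL.smul_I, FL.smul_I, FL.smul_I, mul_smul]
    · rw [FL.smul_J, FL.smul_J, FL.smul_J, mul_smul]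

/-- The inverse loop. -/
def FL.inv (l : FL Γ X) : FL Γ X := ⟨l.el⁻¹, l.J, l.I⟩

@[simp] lemma FL.inv_el (l : FL Γ X) : l.inv.el = l.el⁻¹ := rfl
@[simp] lemma FL.inv_I (l : FL Γ X) : l.inv.I = l.J := rfl
@[simp] lemma FL.inv_J (l : FL Γ X) : l.inv.J = l.I := rfl

@[simp] lemma FL.inv_inv (l : FL Γ X) : l.inv.inv = l := by
  ext1 <;> simp

lemma FL.smul_inv (t : Γ) (l : FL Γ X) : t • l.inv = (t • l).inv := by
  ext1 <;> simp [mul_assoc]

/-- Good framed loops. -/
structure FL.Ok (l : FL Γ X) : Prop where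
  ne : l.I.Nonempty
  ne' : l.J.Nonempty
  dj : Disjoint l.I l.J
  fx : l.el • l.I = l.I
  fx' : l.el • l.J = l.J

lemma FL.Ok.smul {l : FL Γ X} (h : l.Ok) (t : Γ) : (t • l).Ok where
  ne := h.ne.smul_set
  ne' := h.ne'.smul_set
  dj := by
    rw [FL.smul_I, FL.smul_J, Set.disjoint_smul_set]
    exact h.dj
  fx := by
    rw [FL.smul_I, FL.smul_el, ← mul_smul, inv_mul_cancel_right, mul_smul, h.fx]
  fx' := by
    rw [FL.smul_J, FL.smul_el, ← mul_smul, inv_mul_cancel_right, mul_smul, h.fx']

lemma FL.Ok.inv {l : FL Γ X} (h : l.Ok) : l.inv.Ok where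
  ne := h.ne'
  ne' := h.ne
  dj := h.dj.symm
  fx := by
    rw [FL.inv_I, FL.inv_el, inv_smul_eq_iff, h.fx']
  fx' := by
    rw [FL.inv_J, FL.inv_el, inv_smul_eq_iff, h.fx]

/-- A system: a homomorphism `ρ : Q →* Γ` and boundary elements `b i ∈ Q` with framed loops `β i` for
their images; `ρ g` acts trivially only for `g = 1`; the diamond `I` of every translate
`ρ g • β i`, different from `β j` for the trivial reason, is contained in the opposite diamond
`J` of `β j`; at least three cosets of every boundary subgroup. -/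
structure Sys {Q κ : Type} [Group Q] (ρ : Q →* Γ) (b : κ → Q) (β : κ → FL Γ X) : Prop where
  el : ∀ i, (β i).el = ρ (b i)
  ok : ∀ i, (β i).Ok
  inj : ∀ g, (∀ x : X, ρ g • x = x) → g = 1
  dis : ∀ g i j, (i = j → g ∉ Subgroup.zpowers (b i)) → ρ g • (β i).I ⊆ (β j).J
  cos : ∀ i, ∃ x y, x ∉ Subgroup.zpowers (b i) ∧ y ∉ Subgroup.zpowers (b i) ∧
    x⁻¹ * y ∉ Subgroup.zpowers (b i)

/-- State: there is a representation `ρ` of `SF h k` in `Γ` which with the boundary generators and
suitable framed loops `β j` is a system, `β j` being a translate of `c j`. -/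
def St (h k : ℕ) (c : Fin k → FL Γ X) : Prop :=
  ∃ (ρ : SF h k →* Γ) (β : Fin k → FL Γ X), Sys ρ (fun j : Fin k => (sfS j : SF h k)) β ∧
    ∀ j, ∃ t : Γ, β j = t • c j

end FLs

/-! ## Cyclic orders -/

section Cyc

variable {Γ X : Type} [Group Γ] [MulAction Γ X]

/-- An invariant partial cyclic order. -/
structure CO (Γ : Type) {X : Type} [Group Γ] [MulAction Γ X] (T : X → X → X → Prop) : Prop where
  inv : ∀ (g : Γ) (x y z : X), T (g • x) (g • y) (g • z) ↔ T x y z
  cyc : ∀ x y z, T x y z → T y z x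
  asym : ∀ x y z, T x y z → ¬ T x z y
  trans : ∀ x y z t, T x y z → T x z t → T x y t ∧ T y z t
  dense : ∀ x y z, T x y z → ∃ t, T x t y

/-- The diamond from `x` to `y`. -/
def Dm (T : X → X → X → Prop) (x y : X) : Set X := {z | T x z y}

/-- `x` and `y` are in the same position. -/
def Eqv (T : X → X → X → Prop) (x y : X) : Prop := ∀ u v, T x u v ↔ T y u v

/-- The framed loop with the attracting flag `x` and the repelling flag `y`. -/
def fl (T : X → X → X → Prop) (l : Γ) (x y : X) : FL Γ X := ⟨l, Dm T x y, Dm T y x⟩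

/-- Coarse pants data: three edges `e 0`, `e 1`, `e 2`, windows `A i` at the start and `B i` at the
end, the attracting flag `z i j` of the loop `e i * (e j)⁻¹`. -/
structure PD (T : X → X → X → Prop) (e : Fin 3 → Γ) (A B : Fin 3 → Set X)
    (z : Fin 3 → Fin 3 → X) : Prop where
  posA : ∀ x ∈ A 0, ∀ y ∈ A 1, ∀ t ∈ A 2, T x y t
  posB : ∀ x ∈ B 0, ∀ y ∈ B 1, ∀ t ∈ B 2, T t y x
  mapB : ∀ i j, i ≠ j → ∀ y ∈ B j, e i • y ∈ A i
  mapA : ∀ i j, i ≠ j → ∀ x ∈ A j, (e i)⁻¹ • x ∈ B i
  zA : ∀ i j, i ≠ j → z i j ∈ A i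
  zfix : ∀ i j, i ≠ j → Eqv T ((e i * (e j)⁻¹) • z i j) (z i j)

end Cyc

end Pool.Agent.MPEF.U
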