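import Pool.Agent.Lib.MP_ef3f0f_gt.U.G.Spec
import Pool.Agent.Lib.MP_ef3f0f_gt.G.sf

set_option autoImplicit false

/-! MP_ef3f0f_gt, Theorem U, part K, module StAmal: gluing of a pair of pants to a state. -/

namespace Pool.Agent.MPEF.U

open Pool.Agent.MPEF
open scoped Pointwise commutatorElement

private theorem UStAmal_map {h k : ℕ} {Γ Δ : Type} [Group Γ] [Group Δ] (f : Γ →* Δ)
    (x : Fin h × Bool → Γ) (s : Fin k → Γ) :
    f (sfVal x s) = sfVal (fun i => f (x i)) (fun j => f (s j)) := by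
  unfold sfVal
  rw [map_mul, map_list_prod, map_list_prod, List.map_ofFn, List.map_ofFn]
  have h1 : (⇑f ∘ fun i : Fin h => ⁅x (i, false), x (i, true)⁆) =
      fun i : Fin h => ⁅f (x (i, false)), f (x (i, true))⁆ :=
    funext fun i => map_commutatorElement f _ _
  rw [h1]
  rfl

private theorem UStAmal_cons {h k : ℕ} {Γ : Type} [Group Γ] (x : Fin h × Bool → Γ) (a : Γ)
    (s : Fin k → Γ) :
    sfVal x (Fin.cons a s : Fin (k + 1) → Γ) =
      (List.ofFn fun i : Fin h => ⁅x (i, false), x (i, true)⁆).prod * (a * (List.ofFn s).prod) := by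
  unfold sfVal
  rw [List.ofFn_succ, List.prod_cons]
  rfl

private theorem UStAmal_cons₂ {h k : ℕ} {Γ : Type} [Group Γ] (x : Fin h × Bool → Γ) (a b : Γ)
    (s : Fin k → Γ) :
    sfVal x (Fin.cons a (Fin.cons b s : Fin (k + 1) → Γ) : Fin (k + 2) → Γ) =
      sfVal x (Fin.cons (a * b) s : Fin (k + 1) → Γ) := by
  rw [UStAmal_cons, UStAmal_cons, List.ofFn_succ, List.prod_cons]
  have h1 : (fun i : Fin k => (Fin.cons b s : Fin (k + 1) → Γ) i.succ) = s := rfl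
  rw [h1]
  have h2 : (Fin.cons b s : Fin (k + 1) → Γ) 0 = b := rfl
  rw [h2, mul_assoc a b]

private theorem UStAmal_three {Γ : Type} [Group Γ] (x : Fin 0 × Bool → Γ) (s : Fin 3 → Γ) :
    sfVal x s = s 0 * (s 1 * s 2) := by
  unfold sfVal
  simp [List.ofFn_succ]

/-- the index map for the reindexing of the result -/
private def UStAmal_f (k : ℕ) : Fin (k + 2) → Fin k ⊕ Fin 2 :=
  Fin.cons (Sum.inr 0) (Fin.cons (Sum.inr 1) fun j : Fin k => Sum.inl j)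

private theorem UStAmal_f_inj (k : ℕ) : Function.Injective (UStAmal_f k) := by
  intro i j
  refine Fin.cases ?_ (fun i => ?_) i
  · refine Fin.cases ?_ (fun j => ?_) j
    · intro _
      rfl
    · refine Fin.cases ?_ (fun j => ?_) j
      · intro h
        have h1 : (Sum.inr 0 : Fin k ⊕ Fin 2) = Sum.inr 1 := h
        exact absurd (Sum.inr.inj h1) (by decide)
      · intro h
        have h1 : (Sum.inr 0 : Fin k ⊕ Fin 2) = Sum.inl j := h
        exact absurd h1 (by simp)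
  · refine Fin.cases ?_ (fun i => ?_) i
    · refine Fin.cases ?_ (fun j => ?_) j
      · intro h
        have h1 : (Sum.inr 1 : Fin k ⊕ Fin 2) = Sum.inr 0 := h
        exact absurd (Sum.inr.inj h1) (by decide)
      · refine Fin.cases ?_ (fun j => ?_) j
        · intro _
          rfl
        · intro h
          have h1 : (Sum.inr 1 : Fin k ⊕ Fin 2) = Sum.inl j := h
          exact absurd h1 (by simp)
    · refine Fin.cases ?_ (fun j => ?_) j
      · intro h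
        have h1 : (Sum.inl i : Fin k ⊕ Fin 2) = Sum.inr 0 := h
        exact absurd h1 (by simp)
      · refine Fin.cases ?_ (fun j => ?_) j
        · intro h
          have h1 : (Sum.inl i : Fin k ⊕ Fin 2) = Sum.inr 1 := h
          exact absurd h1 (by simp)
        · intro h
          have h1 : (Sum.inl i : Fin k ⊕ Fin 2) = Sum.inl j := h
          rw [Sum.inl.inj h1]

private def UStAmal_g (k : ℕ) : Option (Fin k) → Fin (k + 1) := fun o => o.elim 0 Fin.succ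

private theorem UStAmal_g_inj (k : ℕ) : Function.Injective (UStAmal_g k) := by
  intro i j h
  rcases i with _ | i
  · rcases j with _ | j
    · rfl
    · exact absurd h (Fin.succ_ne_zero j).symm
  · rcases j with _ | j
    · exact absurd h (Fin.succ_ne_zero i)
    · have h1 : Fin.succ i = Fin.succ j := h
      rw [Fin.succ_inj.1 h1]

/-- reindexing of a system along an injective map -/
private theorem UStAmal_re (hMap : S_SysMap) {Γ X Q κ κ' : Type} [Group Γ] [MulAction Γ X]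
    [Group Q] {ρ : Q →* Γ} {b : κ → Q} {β : κ → FL Γ X} (hS : Sys ρ b β) (f : κ' → κ)
    (hf : Function.Injective f) (b' : κ' → Q) (β' : κ' → FL Γ X) (hb : ∀ i, b' i = b (f i))
    (hβ : ∀ i, β' i = β (f i)) : Sys ρ b' β' := by
  have h1 := hMap Γ X Q Q κ κ' ρ b β hS (MulEquiv.refl _) f hf b' (fun _ => 1) (fun i => by
    rw [hb i, one_mul, inv_one, mul_one]
    rfl)
  have h2 : (fun i => ρ (1 : Q) • β (f i)) = β' := by
    funext i
    rw [map_one, one_smul, hβ i]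
  rw [h2] at h1
  exact h1

theorem tStAmal (hMap : S_SysMap) (hConj : S_SysConj) (hAmal : S_Amal) : S_StAmal := by
  intro Γ X _ _ h k c d hc hd hcd
  obtain ⟨ρ₁, β₁, hs1, hj1⟩ := hc
  obtain ⟨ρ₂₀, β₂₀, hs20, hj20⟩ := hd
  obtain ⟨s, hsβ⟩ : ∃ s : Γ, s • β₂₀ 0 = (β₁ 0).inv := by
    obtain ⟨t₁, h1⟩ := hj1 0
    obtain ⟨t₂, h2⟩ := hj20 0
    obtain ⟨t, ht⟩ := hcd
    have h3 : t⁻¹ • d 0 = (c 0).inv := by
      rw [inv_smul_eq_iff, FL.smul_inv, ht, FL.inv_inv]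
    refine ⟨t₁ * t⁻¹ * t₂⁻¹, ?_⟩
    rw [h1, h2, mul_smul, inv_smul_smul, mul_smul, h3, FL.smul_inv]
  -- the representation of the pants
  obtain ⟨ρ₂, hρ₂⟩ : ∃ ρ₂ : SF 0 3 →* Γ, ρ₂ = (MulAut.conj s).toMonoidHom.comp ρ₂₀ := ⟨_, rfl⟩
  have hs2 : Sys ρ₂ (fun j : Fin 3 => (sfS j : SF 0 3)) (fun i => s • β₂₀ i) := by
    rw [hρ₂]
    exact hConj Γ X (SF 0 3) (Fin 3) ρ₂₀ _ β₂₀ hs20 s
  have hρ20 : ρ₂ (sfS 0) = (ρ₁ (sfS 0))⁻¹ := by
    have h1 := hs2.el 0
    rw [hsβ, FL.inv_el, hs1.el 0] at h1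
    exact h1.symm
  -- the relations
  have hr1 : sfVal (fun i => ρ₁ (sfX i)) (fun j => ρ₁ (sfS j)) = 1 := by
    rw [← UStAmal_map, (tsf h (k + 1)).2.1, map_one]
  have hr2 : ρ₂ (sfS 0) * (ρ₂ (sfS 1) * ρ₂ (sfS 2)) = 1 := by
    have h1 := UStAmal_map ρ₂ (sfX : Fin 0 × Bool → SF 0 3) sfS
    rw [(tsf 0 3).2.1, map_one, UStAmal_three] at h1
    exact h1.symm
  have hr12 : ρ₂ (sfS 1) * ρ₂ (sfS 2) = ρ₁ (sfS 0) := by
    rw [hρ20] at hr2
    exact (inv_mul_eq_one.1 hr2).symm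
  have hfun1 : (fun j : Fin (k + 1) => ρ₁ (sfS j)) =
      Fin.cons (ρ₁ (sfS 0)) (fun j : Fin k => ρ₁ (sfS j.succ)) := by
    funext j
    refine Fin.cases ?_ (fun j => ?_) j
    · rfl
    · rfl
  -- the glued representation
  obtain ⟨ρ, hρX, hρS⟩ := (tsf h (k + 2)).1 Γ (fun i => ρ₁ (sfX i))
    (Fin.cons (ρ₂ (sfS 1)) (Fin.cons (ρ₂ (sfS 2)) fun j : Fin k => ρ₁ (sfS j.succ))) (by
      rw [UStAmal_cons₂, hr12, ← hfun1, hr1])
  have hρ0 : ρ (sfS 0) = ρ₂ (sfS 1) := hρS 0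
  have hρ1 : ρ (sfS 1) = ρ₂ (sfS 2) := hρS 1
  have hρs : ∀ j : Fin k, ρ (sfS j.succ.succ) = ρ₁ (sfS j.succ) := fun j => hρS j.succ.succ
  -- the maps j₁, j₂
  have hrel : sfVal (sfX : Fin h × Bool → SF h (k + 2)) (Fin.cons (sfS 0 * sfS 1)
      (fun j : Fin k => (sfS j.succ.succ : SF h (k + 2)))) = 1 := by
    rw [← UStAmal_cons₂]
    have h1 : (Fin.cons (sfS 0) (Fin.cons (sfS 1) fun j : Fin k => (sfS j.succ.succ : SF h (k + 2))) :
        Fin (k + 2) → SF h (k + 2)) = sfS := by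
      funext j
      refine Fin.cases ?_ (fun j => ?_) j
      · rfl
      · refine Fin.cases ?_ (fun j => ?_) j
        · rfl
        · rfl
    rw [h1]
    exact (tsf h (k + 2)).2.1
  obtain ⟨j₁, hj₁X, hj₁S⟩ := (tsf h (k + 1)).1 (SF h (k + 2)) (fun i => sfX i)
    (Fin.cons (sfS 0 * sfS 1) (fun j : Fin k => (sfS j.succ.succ : SF h (k + 2)))) hrel
  have hj₁0 : j₁ (sfS 0) = sfS 0 * sfS 1 := hj₁S 0
  have hj₁s : ∀ j : Fin k, j₁ (sfS j.succ) = sfS j.succ.succ := fun j => hj₁S j.succ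
  obtain ⟨j₂, -, hj₂S⟩ := (tsf 0 3).1 (SF h (k + 2)) (fun _ => 1)
    (Fin.cons (sfS 0 * sfS 1)⁻¹ (Fin.cons (sfS 0) (Fin.cons (sfS 1) (fun _ : Fin 0 => 1)))) (by
      rw [UStAmal_three]
      exact inv_mul_cancel _)
  have hj₂0 : j₂ (sfS 0) = (sfS 0 * sfS 1)⁻¹ := hj₂S 0
  have hj₂1 : j₂ (sfS 1) = sfS 0 := hj₂S 1
  have hj₂2 : j₂ (sfS 2) = sfS 1 := hj₂S 2
  have hc1 : ρ.comp j₁ = ρ₁ := by
    refine (tsf h (k + 1)).2.2.2 Γ _ _ (fun i => ?_) (fun j => ?_)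
    · rw [MonoidHom.comp_apply, hj₁X, hρX]
    · refine Fin.cases ?_ (fun j => ?_) j
      · rw [MonoidHom.comp_apply, hj₁0, map_mul, hρ0, hρ1, hr12]
      · rw [MonoidHom.comp_apply, hj₁s, hρs]
  have hc2 : ρ.comp j₂ = ρ₂ := by
    refine (tsf 0 3).2.2.2 Γ _ _ (fun i => i.1.elim0) (fun j => ?_)
    refine Fin.cases ?_ (fun j => ?_) j
    · rw [MonoidHom.comp_apply, hj₂0, map_inv, map_mul, hρ0, hρ1, hr12, hρ20]
    · refine Fin.cases ?_ (fun j => ?_) j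
      · have h1 : (ρ.comp j₂) (sfS 1) = ρ₂ (sfS 1) := by
          rw [MonoidHom.comp_apply, hj₂1, hρ0]
        exact h1
      · refine Fin.cases ?_ (fun j => j.elim0) j
        have h1 : (ρ.comp j₂) (sfS 2) = ρ₂ (sfS 2) := by
          rw [MonoidHom.comp_apply, hj₂2, hρ1]
        exact h1
  -- the systems, reindexed
  have hS1 : Sys ρ₁ (fun o : Option (Fin k) => (sfS (UStAmal_g k o) : SF h (k + 1)))
      (fun o => β₁ (UStAmal_g k o)) :=
    UStAmal_re hMap hs1 (UStAmal_g k) (UStAmal_g_inj k) _ _ (fun _ => rfl) (fun _ => rfl)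
  have hS2 : Sys ρ₂ (fun o : Option (Fin 2) => (sfS (UStAmal_g 2 o) : SF 0 3))
      (fun o => s • β₂₀ (UStAmal_g 2 o)) :=
    UStAmal_re hMap hs2 (UStAmal_g 2) (UStAmal_g_inj 2) _ _ (fun _ => rfl) (fun _ => rfl)
  have hS := hAmal Γ X (SF h (k + 1)) (SF 0 3) (SF h (k + 2)) (Fin k) (Fin 2)
    ρ₁ _ _ ρ₂ _ _ ρ j₁ j₂ hS1 hS2
    (fun x => by rw [← hc1]; rfl) (fun x => by rw [← hc2]; rfl)
    (by
      have h1 : j₂ (sfS 0) = (j₁ (sfS 0))⁻¹ := by rw [hj₂0, hj₁0]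
      exact h1)
    (by
      have h1 : s • β₂₀ 0 = (β₁ 0).inv := hsβ
      exact h1)
    (by
      rw [eq_top_iff, ← (tsf h (k + 2)).2.2.1, Subgroup.closure_le]
      rintro y (⟨i, rfl⟩ | ⟨j, rfl⟩)
      · exact (le_sup_left : j₁.range ≤ j₁.range ⊔ j₂.range) ⟨sfX i, hj₁X i⟩
      · refine Fin.cases ?_ (fun j => ?_) j
        · exact (le_sup_right : j₂.range ≤ j₁.range ⊔ j₂.range) ⟨sfS 1, hj₂1⟩
        · refine Fin.cases ?_ (fun j => ?_) j
          · exact (le_sup_right : j₂.range ≤ j₁.range ⊔ j₂.range) ⟨sfS 2, hj₂2⟩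
          · exact (le_sup_left : j₁.range ≤ j₁.range ⊔ j₂.range) ⟨sfS j.succ, hj₁s j⟩)
  have hβ' : ∀ j : Fin 3, ∃ t : Γ, s • β₂₀ j = t • d j := by
    intro j
    obtain ⟨t, ht⟩ := hj20 j
    exact ⟨s * t, by rw [ht, mul_smul]⟩
  refine ⟨ρ, Fin.cons (s • β₂₀ 1) (Fin.cons (s • β₂₀ 2) fun j : Fin k => β₁ j.succ), ?_,
    fun j => ?_⟩
  · refine UStAmal_re hMap hS (UStAmal_f k) (UStAmal_f_inj k) _ _ (fun i => ?_) (fun i => ?_)
    · refine Fin.cases ?_ (fun i => ?_) i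
      · exact hj₂1.symm
      · refine Fin.cases ?_ (fun i => ?_) i
        · exact hj₂2.symm
        · exact (hj₁s i).symm
    · refine Fin.cases ?_ (fun i => ?_) i
      · rfl
      · refine Fin.cases ?_ (fun i => ?_) i
        · rfl
        · rfl
  · refine Fin.cases ?_ (fun j => ?_) j
    · exact hβ' 1
    · refine Fin.cases ?_ (fun j => ?_) j
      · exact hβ' 2
      · exact hj1 j.succ

end Pool.Agent.MPEF.U
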